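import Pool.Agent.Lib.AN.Blue
import Pool.Agent.Lib.SMG.Gauge
import Pool.Agent.Lib.CX.Sec

/-! Block ALGB. -/

noncomputable section

open Set Function Filter Topology MeasureTheory CliffordAlgebra
open scoped Manifold ContDiff InnerProductSpace

namespace Pool.Agent.Lib.AN

open CX SMG
open ANA (gam_cl sm dd_eq ga_eq mem_fr Fm)

variable {n N : ℕ} (X : SM n) (S : Spinor n N)

theorem algb_om (a b : ℕ) (y : X.M) (i j : Fin n) : om X a b y i j = rot (X.F a) (X.F b) i j y := rfl

theorem algb_nabL (a : ℕ) (i : Fin n) (u : X.M → Eu N) (y : X.M) :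
    nabL X S a i u y = Fm.nab (X.F a) (gam S) i u y := by
  simp only [nabL, Fm.nab, Fm.con, LICH.lam, gam, map_mul, _root_.smul_apply, _root_.sum_apply,
    dd_eq, ga_eq]

open Classical in
theorem algb_meas {β : Type} [TopologicalSpace β] [MeasurableSpace β] [BorelSpace β] [Zero β]
    (a : ℕ) {f : ℕ → X.M → β} (hf : ∀ b, ContinuousOn (f b) (X.U b ∩ X.U a)) :
    Measurable ((X.U a).indicator fun p => f (X.fr p) p) := by
  have : BorelSpace X.M := ⟨rfl⟩
  have h := measurable_diag (SM.measurable_fr' (X := X))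
    (f := fun b => (X.U b ∩ X.U a).piecewise (f b) 0) fun b =>
      (hf b).measurable_piecewise continuousOn_const ((X.isOpen b).inter (X.isOpen a)).measurableSet
  convert h using 2 with p
  by_cases hp : p ∈ X.U a <;> simp [hp, mem_fr]

theorem algb_rel (i j : Fin n) (u : Eu N) :
    gam S i (gam S j u) + gam S j (gam S i u) = (if i = j then (-2 : ℝ) else 0) • u := by
  have := DFunLike.congr_fun ((gam_cl S).rel.anti i j) u
  rw [mul_one] at this
  exact this

theorem algb_sm (a b : ℕ) (i j : Fin n) :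
    ContMDiffOn (𝓡 n) 𝓘(ℝ, ℝ) ∞ (fun y => om X a b y i j) (X.U a ∩ X.U b) := fun _ hy =>
  (rot_smooth (sm X a) (sm X b) hy.1 hy.2 i j).contMDiffWithinAt

theorem stALGB : St_ALGB := fun n N X S =>
  { mem_fr := mem_fr X
    meas_fr := SM.measurable_fr'
    gam_skew := (gam_cl S).adj
    gam_rel := algb_rel S
    gam_norm := fun i u => by
      have h : gam S i (gam S i u) = -u := by
        have := algb_rel S i i u
        rw [if_pos rfl, ← two_smul ℝ, neg_smul, ← smul_neg] at this
        exact smul_right_injective _ two_ne_zero this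
      rw [← sq_eq_sq₀ (norm_nonneg _) (norm_nonneg _), ← real_inner_self_eq_norm_sq,
        ← real_inner_self_eq_norm_sq, (gam_cl S).adj, h, inner_neg_right, neg_neg]
    tr_self := fun ha u => by simp [tr, s_self X ha]
    tr_tr := fun ha hb hc u => by
      rw [tr, tr, tr, ← X.cocycle _ _ _ _ ⟨⟨ha, hb⟩, hc⟩, map_mul]
      rfl
    tr_inner := fun ha hb => inner_spin S (s_mem X ha hb)
    tr_norm := fun ha hb => norm_spin S (s_mem X ha hb)
    tr_gam := fun ha hb j u => by
      simpa [tr, gam, algb_om] using DFunLike.congr_fun (conj_rot S.c (X.spin _ _ _ ⟨ha, hb⟩) j) u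
    tr_w := fun hw _ _ _ ha hb u =>
      (DFunLike.congr_fun (comm_spin S.c (fun i => ContinuousLinearMap.ext (hw.anti _))
        (s_mem X ha hb)) u).symm
    om_row := fun ha hb => orth_rot' (X.spin _ _ _ ⟨ha, hb⟩)
    om_col := fun ha hb => orth_rot (X.spin _ _ _ ⟨ha, hb⟩)
    tr_sm := SM.contMDiffOn_cs S
    om_sm := algb_sm X
    dd_om := fun φ a b y ha hb i => by
      have h := orth_rot' (X.spin _ _ _ ⟨ha, hb⟩) i
      simp only [dd_eq, dd_rot (X.F a) (X.F b), algb_om, Finset.smul_sum, smul_smul]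
      rw [Finset.sum_comm]
      simp [← Finset.sum_smul, h]
    meas_loc := fun a => (algb_meas X a (f := fun b => tr X S a b) fun b =>
      inter_comm _ _ ▸ (SM.contMDiffOn_cs S a b).continuousOn).stronglyMeasurable
    meas_glob := fun a => (SM.measurable_cs S a).stronglyMeasurable
    meas_om := fun a i j => algb_meas X a (f := fun b y => om X b a y i j) fun b =>
      (algb_sm X b a i j).continuousOn }

end Pool.Agent.Lib.AN
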