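import Pool.Agent.Lib.AN.Blue

/-! Block CORE: test sections. -/

noncomputable section

open Set Function Filter Topology MeasureTheory CliffordAlgebra
open scoped Manifold ContDiff InnerProductSpace

namespace Pool.Agent.Lib.AN

open CX

namespace Core46

variable {n N : ℕ} {X : SM n} {S : Spinor n N} {s t : X.M → Eu N} {a b : ℕ} {y : X.M}

theorem smAt (h : IsT X S s) (ha : y ∈ X.U a) :
    ContMDiffAt (𝓡 n) 𝓘(ℝ, Eu N) ∞ (loc X S a s) y :=
  (h.sm a).contMDiffAt ((X.isOpen a).mem_nhds ha)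

theorem mdAt (h : IsT X S s) (ha : y ∈ X.U a) :
    MDifferentiableAt (𝓡 n) 𝓘(ℝ, Eu N) (loc X S a s) y := (smAt h ha).mdifferentiableAt (by simp)

theorem supp_loc (a : ℕ) (s : X.M → Eu N) : tsupport (loc X S a s) ⊆ tsupport s :=
  closure_mono fun y hy e => hy (by simp [loc, e])

theorem supp_glob (a : ℕ) (s : X.M → Eu N) : tsupport (glob X S a s) ⊆ tsupport s :=
  closure_mono fun y hy e => hy (by simp [glob, e])

theorem smAt_off {u : X.M → Eu N} (h : y ∉ tsupport u) : ContMDiffAt (𝓡 n) 𝓘(ℝ, Eu N) ∞ u y :=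
  contMDiffAt_const.congr_of_eventuallyEq (notMem_tsupport_iff_eventuallyEq.1 h)

theorem loc_add (a : ℕ) (s t : X.M → Eu N) :
    loc X S a (fun y => s y + t y) = fun y => loc X S a s y + loc X S a t y :=
  funext fun _ => map_add _ _ _

theorem loc_mul (a : ℕ) (ψ : X.M → ℝ) (s : X.M → Eu N) :
    loc X S a (fun y => ψ y • s y) = fun y => ψ y • loc X S a s y :=
  funext fun _ => map_smul _ _ _

theorem supp_mul (ψ : X.M → ℝ) (s : X.M → Eu N) : tsupport (fun y => ψ y • s y) ⊆ tsupport s :=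
  closure_mono fun y hy e => hy (by simp [e])

theorem zero : IsT X S fun _ => 0 :=
  ⟨HasCompactSupport.zero, fun _ => contMDiffOn_const.congr fun _ _ => map_zero _⟩

theorem add (hs : IsT X S s) (ht : IsT X S t) : IsT X S fun y => s y + t y :=
  ⟨hs.cpt.add ht.cpt, fun a => by rw [loc_add]; exact (hs.sm a).add (ht.sm a)⟩

theorem mul {ψ : X.M → ℝ} (hs : IsT X S s)
    (hψ : ∀ y ∈ tsupport s, ContMDiffAt (𝓡 n) 𝓘(ℝ, ℝ) ∞ ψ y) : IsT X S fun y => ψ y • s y := by
  refine ⟨hs.cpt.mono' ((subset_tsupport _).trans (supp_mul ψ s)), fun a y hy => ?_⟩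
  by_cases h : y ∈ tsupport s
  · rw [loc_mul]
    exact ((hψ y h).smul (smAt hs hy)).contMDiffWithinAt
  · exact (smAt_off fun h' => h (supp_mul ψ s (supp_loc a _ h'))).contMDiffWithinAt

theorem sum {κ : Type} (F : Finset κ) {s : κ → X.M → Eu N} (h : ∀ k ∈ F, IsT X S (s k)) :
    IsT X S fun y => ∑ k ∈ F, s k y := by
  classical
  induction F using Finset.induction_on with
  | empty => simpa using zero
  | insert k F hk ih =>
    simp only [Finset.sum_insert hk]
    exact add (h k (Finset.mem_insert_self _ _)) (ih fun l hl => h l (Finset.mem_insert_of_mem hl))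

variable (A : AlgApi X S) (L : LocApi X S) (Ga : GauApi X S)
include A

theorem loc_fr (s : X.M → Eu N) (y : X.M) : loc X S (X.fr y) s y = s y := A.tr_self (A.mem_fr y) _

theorem loc_ev (s : X.M → Eu N) (ha : y ∈ X.U a) (hb : y ∈ X.U b) :
    loc X S a s =ᶠ[𝓝 y] fun z => tr X S a b z (loc X S b s z) := by
  filter_upwards [(X.isOpen a).mem_nhds ha, (X.isOpen b).mem_nhds hb] with z h1 h2
  exact (A.tr_tr h1 h2 (A.mem_fr z) _).symm

theorem loc_w {w : Eu N →L[ℝ] Eu N} (hw : Gr S w) (s : X.M → Eu N) (ha : y ∈ X.U a) :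
    loc X S a (fun z => w (s z)) y = w (loc X S a s y) := A.tr_w hw ha (A.mem_fr y) _

theorem isT_w {w : Eu N →L[ℝ] Eu N} (hw : Gr S w) (hs : IsT X S s) : IsT X S fun y => w (s y) :=
  ⟨hs.cpt.comp_left (g := w) (map_zero w), fun a =>
    (w.contMDiff.comp_contMDiffOn (hs.sm a)).congr fun _ hy => loc_w A hw s hy⟩

theorem glob_loc (v : Eu N) (ha : y ∈ X.U a) :
    tr X S (X.fr y) a y (tr X S a (X.fr y) y v) = v := by
  rw [A.tr_tr (A.mem_fr y) ha (A.mem_fr y), A.tr_self (A.mem_fr y)]

include L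

omit A in
theorem dirac_congr {u v : X.M → Eu N} (h : u =ᶠ[𝓝 y] v) (a : ℕ) :
    X.dirac S a u y = X.dirac S a v y := by
  show ∑ i, gam S i (nabL X S a i u y) = ∑ i, gam S i (nabL X S a i v y)
  simp only [L.nabL_congr h]

omit A in
theorem nab_zero (h : y ∉ tsupport s) (i : Fin n) : nab X S i s y = 0 :=
  L.nabL_zero (fun h' => h (supp_loc _ s h')) _ i

omit A in
theorem dir_zero (h : y ∉ tsupport s) : dir X S s y = 0 := by
  simp [dir_eq, nab_zero L h]

theorem nab_add (hs : IsT X S s) (ht : IsT X S t) (i : Fin n) (y : X.M) :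
    nab X S i (fun z => s z + t z) y = nab X S i s y + nab X S i t y := by
  rw [nab, loc_add]
  exact L.nabL_add (mdAt hs (A.mem_fr y)) (mdAt ht (A.mem_fr y)) _ i

theorem nab_mul {ψ : X.M → ℝ} (hs : IsT X S s)
    (hψ : ∀ y ∈ tsupport s, ContMDiffAt (𝓡 n) 𝓘(ℝ, ℝ) ∞ ψ y) (i : Fin n) (y : X.M) :
    nab X S i (fun z => ψ z • s z) y = ψ y • nab X S i s y + dv X i ψ y • s y := by
  by_cases h : y ∈ tsupport s
  · rw [nab, loc_mul, L.nabL_smul ((hψ y h).mdifferentiableAt (by simp)) (mdAt hs (A.mem_fr y)),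
      loc_fr A]
    rfl
  · rw [nab_zero L fun h' => h (supp_mul ψ s h'), nab_zero L h,
      image_eq_zero_of_notMem_tsupport h]
    simp

theorem nab_smul (c : ℝ) (hs : IsT X S s) (i : Fin n) (y : X.M) :
    nab X S i (fun z => c • s z) y = c • nab X S i s y := by
  rw [nab_mul A L (ψ := fun _ => c) hs (fun _ _ => contMDiffAt_const), dv, L.dd_const]
  simp

theorem dir_add (hs : IsT X S s) (ht : IsT X S t) (y : X.M) :
    dir X S (fun z => s z + t z) y = dir X S s y + dir X S t y := by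
  simp only [dir_eq, nab_add A L hs ht, map_add, Finset.sum_add_distrib]

theorem dir_sum {κ : Type} (F : Finset κ) {s : κ → X.M → Eu N} (h : ∀ k ∈ F, IsT X S (s k))
    (y : X.M) : dir X S (fun z => ∑ k ∈ F, s k z) y = ∑ k ∈ F, dir X S (s k) y := by
  classical
  induction F using Finset.induction_on with
  | empty =>
    simp only [Finset.sum_empty]
    exact dir_zero L (by simp)
  | insert k F hk ih =>
    simp only [Finset.sum_insert hk]
    have h' := fun l hl => h l (Finset.mem_insert_of_mem hl)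
    rw [dir_add A L (h k (Finset.mem_insert_self _ _)) (sum F h'), ih h']

theorem dir_w {w : Eu N →L[ℝ] Eu N} (hw : Gr S w) (hs : IsT X S s) (y : X.M) :
    dir X S (fun z => w (s z)) y = -w (dir X S s y) := by
  have h : ∀ i, nab X S i (fun z => w (s z)) y = w (nab X S i s y) := fun i => by
    rw [nab, nab, ← L.nabL_w hw (mdAt hs (A.mem_fr y))]
    refine L.nabL_congr ?_ _ i
    filter_upwards [(X.isOpen _).mem_nhds (A.mem_fr y)] with z hz
    exact loc_w A hw s hz
  have h2 : ∀ i u, gam S i (w u) = -w (gam S i u) := fun i u => by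
    rw [gam, hw.anti, neg_neg]
  simp only [dir_eq, h, h2, map_sum, Finset.sum_neg_distrib]

include Ga

theorem loc_dir (hs : IsT X S s) (ha : y ∈ X.U a) :
    loc X S a (dir X S s) y = X.dirac S a (loc X S a s) y := by
  rw [dirac_congr L (loc_ev A s ha (A.mem_fr y)), Ga.dirac ha (A.mem_fr y) (mdAt hs (A.mem_fr y))]
  rfl

theorem isT_dir (hs : IsT X S s) : IsT X S (dir X S s) :=
  ⟨hs.cpt.mono' fun _ hy => by_contra fun h => hy (dir_zero L h), fun _ _ hy =>
    (L.dirac_sm hy (smAt hs hy)).contMDiffWithinAt.congr (fun _ hz => loc_dir A L Ga hs hz)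
      (loc_dir A L Ga hs hy)⟩

theorem nab_eq (hs : IsT X S s) (ha : y ∈ X.U a) (i : Fin n) : nab X S i s y =
    ∑ j, om X (X.fr y) a y i j • tr X S (X.fr y) a y (nabL X S a j (loc X S a s) y) := by
  rw [nab, L.nabL_congr (loc_ev A s (A.mem_fr y) ha), Ga.nabL (A.mem_fr y) ha (mdAt hs ha)]

theorem nab_inner (hs : IsT X S s) (ht : IsT X S t) (ha : y ∈ X.U a) :
    ∑ i, ⟪nab X S i s y, nab X S i t y⟫_ℝ =
      ∑ i, ⟪nabL X S a i (loc X S a s) y, nabL X S a i (loc X S a t) y⟫_ℝ := by
  simp only [nab_eq A L Ga hs ha, nab_eq A L Ga ht ha, sum_inner, inner_sum, real_inner_smul_left,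
    real_inner_smul_right, A.tr_inner (A.mem_fr y) ha, ← mul_assoc]
  rw [Finset.sum_comm]
  refine Finset.sum_congr rfl fun k _ => ?_
  rw [Finset.sum_comm]
  simp only [← Finset.sum_mul, A.om_col (A.mem_fr y) ha]
  simp

theorem isT_glob {O : Set X.M} {u : X.M → Eu N} (h : IsE X a O u) :
    IsT X S (glob X S a u) ∧ tsupport (glob X S a u) ⊆ tsupport u ∧
      loc X S a (glob X S a u) = u ∧ dir X S (glob X S a u) = glob X S a (X.dirac S a u) := by
  have h0 : ∀ y ∉ X.U a, y ∉ tsupport u := fun y hy h' => hy (h.sub h').1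
  have h1 : IsT X S (glob X S a u) := by
    refine ⟨h.cpt.mono' ((subset_tsupport _).trans (supp_glob a u)), fun b y hy => ?_⟩
    by_cases e : y ∈ X.U a
    · have h2 := ((A.tr_sm b a).contMDiffAt
        (((X.isOpen b).inter (X.isOpen a)).mem_nhds ⟨hy, e⟩)).clm_apply (h.sm y)
      refine (h2.congr_of_eventuallyEq ?_).contMDiffWithinAt
      filter_upwards [(X.isOpen a).mem_nhds e, (X.isOpen b).mem_nhds hy] with z h3 h4
      exact A.tr_tr h4 (A.mem_fr z) h3 _
    · exact (smAt_off fun h' => h0 y e (supp_glob a u (supp_loc b _ h'))).contMDiffWithinAt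
  have h2 : loc X S a (glob X S a u) = u := funext fun y => by
    by_cases e : y ∈ X.U a
    · rw [loc, glob, A.tr_tr e (A.mem_fr y) e, A.tr_self e]
    · simp [loc, glob, image_eq_zero_of_notMem_tsupport (h0 y e)]
  refine ⟨h1, supp_glob a u, h2, funext fun y => ?_⟩
  by_cases e : y ∈ X.U a
  · have h3 := loc_dir A L Ga h1 e
    rw [h2] at h3
    rw [glob, ← h3, loc, glob_loc A _ e]
  · rw [dir_zero L fun h' => h0 y e (supp_glob a u h'), glob]
    have : X.dirac S a u y = 0 := by
      show ∑ i, gam S i (nabL X S a i u y) = 0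
      simp [L.nabL_zero (h0 y e)]
    rw [this, map_zero]

omit L Ga in
theorem unglob {O : Set X.M} (hs : IsT X S s) (h : tsupport s ⊆ X.U a ∩ O) :
    IsE X a O (loc X S a s) ∧ glob X S a (loc X S a s) = s := by
  refine ⟨⟨fun y => ?_, hs.cpt.mono' ((subset_tsupport _).trans (supp_loc a s)),
    (supp_loc a s).trans h⟩, funext fun y => ?_⟩
  · by_cases e : y ∈ tsupport s
    · exact smAt hs (h e).1
    · exact smAt_off fun h' => e (supp_loc a s h')
  · by_cases e : y ∈ tsupport s
    · exact glob_loc A _ (h e).1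
    · simp [glob, loc, image_eq_zero_of_notMem_tsupport e]

end Core46

open Core46 in
theorem stCORE (hA : St_ALGB) (hL : St_LOC) (hG : St_GAU) : St_CORE := fun n N X S =>
  have A := hA n N X S
  have L := hL n N X S
  have Ga := hG n N X S
  { zero := zero
    add := add
    smul := fun c _ hs => Core46.mul (ψ := fun _ => c) hs fun _ _ => contMDiffAt_const
    sum := sum
    w := fun hw _ hs => isT_w A hw hs
    mul := Core46.mul
    dir := isT_dir A L Ga
    loc_inner := fun _ _ _ y ha => A.tr_inner ha (A.mem_fr y) _ _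
    loc_dir := fun hs _ _ ha => loc_dir A L Ga hs ha
    nab_eq := fun hs _ _ ha => nab_eq A L Ga hs ha
    nab_inner := fun hs ht _ _ ha => nab_inner A L Ga hs ht ha
    nab_zero := nab_zero L
    dir_zero := dir_zero L
    nab_add := nab_add A L
    nab_smul := fun c _ hs => nab_smul A L c hs
    nab_mul := nab_mul A L
    dir_add := dir_add A L
    dir_smul := fun c _ hs y => by
      simp only [dir_eq, nab_smul A L c hs, map_smul, Finset.smul_sum]
    dir_sum := dir_sum A L
    dir_mul := fun hs hψ y => by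
      simp only [dir_eq, nab_mul A L hs hψ, map_add, Finset.sum_add_distrib, Finset.smul_sum]
      simp only [map_smul]
    dir_w := fun hw _ hs => dir_w A L hw hs
    glob := isT_glob A L Ga
    unglob := unglob A }

end Pool.Agent.Lib.AN
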