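import Pool.Agent.Lib.AN.Blue
import Pool.Agent.Lib.ANA.CylY

/-! Block CYL. -/

noncomputable section

open Manifold Set
open scoped ContDiff

namespace Pool.Agent.Lib.AN

open CX ANA.Cyl ANA.CylB

theorem CYL.gauge (hG : St_GAU) {n : ℕ} (Y : SM n) (a b : ℕ) (p : Y.M) (ha : p ∈ Y.U a)
    (hb : p ∈ Y.U b) : ∑ i, ∑ j, Y.riem a i j j i p = ∑ i, ∑ j, Y.riem b i j j i p :=
  ((hG n 0 Y (sp0 n)).scal ha).trans ((hG n 0 Y (sp0 n)).scal hb).symm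

theorem CYL.abs_dv_le {n : ℕ} (X : SM n) {ψ : X.M → ℝ} {p : X.M} {C : ℝ} (hC : 0 ≤ C)
    (h : g2 X ψ p ≤ C ^ 2) (i : Fin n) : |dv X i ψ p| ≤ C :=
  abs_le_of_sq_le_sq ((Finset.single_le_sum (f := fun i => X.dd (X.fr p) i ψ p ^ 2)
    (fun _ _ => sq_nonneg _) (Finset.mem_univ i)).trans h) hC

/-- Smooth functions that are invariant along the far cylinder. -/
theorem CYL.sm_of_inv {G : Type} [Group G] {m : ℕ} (x : Sing G m) {ψ : x.X.M → ℝ}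
    (hψ : ContMDiff (𝓡 (m + 1)) 𝓘(ℝ, ℝ) ∞ ψ) {R : ℝ} {g : x.N.M → ℝ}
    (h : ∀ z ∈ O x, R ≤ z.2 0 → ψ (x.j z) = g z.1) : Sm x.X ψ := by
  obtain ⟨C, h0, hC⟩ := g2_bdd x hψ h
  refine ⟨hψ, ?_, √C, fun i p => CYL.abs_dv_le _ (Real.sqrt_nonneg _)
    ((hC p).trans_eq (Real.sq_sqrt h0).symm) i⟩
  obtain ⟨B, hB⟩ := (isCompact_ht_le x (|R| + 1)).bddAbove_image hψ.continuous.abs.continuousOn
  refine ⟨B, fun p => ?_⟩
  rcases le_or_gt (ht x p) (|R| + 1) with h1 | h1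
  · exact hB ⟨p, h1, rfl⟩
  · obtain ⟨z, hz, rfl, h2⟩ := exists_of_ht_pos x (lt_trans (by positivity) h1)
    have h3 : (((z.1, (|R| + 1) • bv 0) : x.N.M × Eu 1).2 0) = |R| + 1 := by simp [bv]
    have h4 : ((z.1, (|R| + 1) • bv 0) : x.N.M × Eu 1) ∈ O x := by
      change (0 : ℝ) < _
      rw [h3]; positivity
    rw [h z hz (by linarith [le_abs_self R]), ← h _ h4 (by rw [h3]; linarith [le_abs_self R])]
    exact hB ⟨_, by rw [mem_ofPred_eq, ht_j x h4, h3], rfl⟩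

theorem stCYL (hG : St_GAU) : St_CYL := fun G _ m x =>
  { cpl := ⟨inferInstance, fun K hK ε hε => by
      obtain ⟨ρ, h1, h2, -, h3, h4⟩ := exists_cutoff x hK hε
      exact ⟨ρ, h1, h2, h3, fun i p => CYL.abs_dv_le _ hε.le (h4 p) i⟩⟩
    scal := fun y t ht => scal_j x (CYL.gauge hG) (z := (y, t)) ht
    pull := fun ψ g hψ _ s _ h => CYL.sm_of_inv x hψ (R := s) (g := g) fun z _ hz => h z.1 z.2 hz }

end Pool.Agent.Lib.AN
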