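import Pool.Agent.Lib.AN.Blue

/-! Block DR: the range of `D + w` on test sections is dense. -/

noncomputable section

open Set Function Filter Topology MeasureTheory CliffordAlgebra
open scoped Manifold ContDiff InnerProductSpace

namespace Pool.Agent.Lib.AN

open CX

theorem dr_approx {C H : Type} [NormedAddCommGroup H] [InnerProductSpace ℝ H] (P : C → Prop)
    (j T : C → H) (hT : ∀ s, P s → ⟪j s, T s⟫_ℝ = 0) {u w : H}
    (hw : ∀ s, P s → ⟪u, T s⟫_ℝ = ⟪w, j s⟫_ℝ) {M : ℝ}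
    (h : ∀ η, 0 < η → ∃ s, P s ∧ ‖j s - u‖ < η ∧ ‖T s‖ ≤ M) : ⟪w, u⟫_ℝ = 0 := by
  rw [← abs_nonpos_iff]
  refine le_of_forall_pos_le_add fun ε hε => ?_
  obtain ⟨s, hs, h1, h2⟩ := h (ε / (‖w‖ + |M| + 1)) (by positivity)
  rw [norm_sub_rev] at h1
  have e : ⟪w, u⟫_ℝ = ⟪w, u - j s⟫_ℝ + ⟪u - j s, T s⟫_ℝ := by
    rw [inner_sub_right, inner_sub_left, hT s hs, hw s hs]; ring
  have t1 := abs_real_inner_le_norm w (u - j s)
  have t2 := (abs_real_inner_le_norm (u - j s) (T s)).trans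
    (mul_le_mul_of_nonneg_left (h2.trans (le_abs_self M)) (norm_nonneg _))
  rw [lt_div_iff₀ (by positivity)] at h1
  rw [e, zero_add]
  refine (abs_add_le _ _).trans ?_
  nlinarith [norm_nonneg (u - j s)]

theorem stDR (hMUL : St_MUL) (hALG : St_ALGB) (hSMB : St_SMB) (hCORE : St_CORE) (hMEM : St_MEM)
    (hLIC : St_LIC) (hWS : St_WS2) : St_DR := by
  classical
  intro n N X S μ hμ hc w hw
  have := hc.sc
  have hM := hMUL X.M (Eu N) μ
  have hA := hALG n N X S
  have hB := hSMB n X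
  have hK := hCORE n N X S
  have hm := hMEM n N X S μ hμ
  have hL := hLIC n N X S μ hμ hc.sc
  have hdw : ∀ {s}, IsT X S s → cl μ (dw X S w s) = cl μ (dir X S s) + cst μ w (cl μ s) :=
    fun {s} hs => by
      have h1 := hM.cst_cl w (hm s hs).1
      rw [h1.2, ← hM.cl_add (hm _ (hK.dir hs)).1 h1.1]
      rfl
  have hwn : ∀ u, ‖w u‖ = ‖u‖ := fun u => by
    rw [← sq_eq_sq₀ (norm_nonneg _) (norm_nonneg _), ← real_inner_self_eq_norm_sq,
      ← real_inner_self_eq_norm_sq, hw.sym, hw.sq]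
  have hws := hM.cst_inner w w hw.sym
  have hdirw : ∀ {s}, IsT X S s →
      cl μ (dir X S fun y => w (s y)) = -cst μ w (cl μ (dir X S s)) := fun {s} hs => by
    have h2 : dir X S (fun y => w (s y)) = fun y => -w (dir X S s y) := funext (hK.dir_w hw hs)
    rw [h2, hM.cl_neg, ← (hM.cst_cl w (hm _ (hK.dir hs)).1).2]
  have hsk : ∀ s, IsT X S s → ⟪cl μ s, cst μ w (cl μ (dir X S s))⟫_ℝ = 0 := fun s hs => by
    have h1 := hL.sym hs (hK.w hw hs)
    rw [hdirw hs, ← (hM.cst_cl w (hm s hs).1).2, inner_neg_right] at h1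
    have h4 := hws (cl μ s) (cl μ (dir X S s))
    have h5 := real_inner_comm (cl μ (dir X S s)) (cst μ w (cl μ s))
    linarith
  let T : Submodule ℝ (Lp (Eu N) 2 μ) :=
    { carrier := {η | ∃ s, IsT X S s ∧ η = cl μ (dw X S w s)}
      add_mem' := by
        rintro _ _ ⟨s, hs, rfl⟩ ⟨t, ht, rfl⟩
        refine ⟨_, hK.add hs ht, ?_⟩
        rw [hdw (hK.add hs ht), hdw hs, hdw ht, funext (hK.dir_add hs ht),
          hM.cl_add (hm _ (hK.dir hs)).1 (hm _ (hK.dir ht)).1, hM.cl_add (hm s hs).1 (hm t ht).1,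
          map_add]
        abel
      zero_mem' := by
        refine ⟨_, hK.smul 0 hK.zero, ?_⟩
        rw [hdw (hK.smul 0 hK.zero), funext (hK.dir_smul 0 hK.zero), hM.cl_smul, hM.cl_smul,
          map_smul, zero_smul, zero_smul, add_zero]
      smul_mem' := by
        rintro c _ ⟨s, hs, rfl⟩
        refine ⟨_, hK.smul c hs, ?_⟩
        rw [hdw (hK.smul c hs), hdw hs, funext (hK.dir_smul c hs), hM.cl_smul, hM.cl_smul,
          map_smul, smul_add] }
  change Dense (T : Set (Lp (Eu N) 2 μ))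
  rw [Submodule.dense_iff_topologicalClosure_eq_top, Submodule.topologicalClosure_eq_top_iff,
    Submodule.eq_bot_iff]
  intro v hv
  have hW : Weak X S μ v (-cst μ w v) := fun t ht => by
    have h1 := (Submodule.mem_orthogonal' _ _).1 hv _ ⟨t, ht, rfl⟩
    rw [hdw ht, inner_add_right] at h1
    rw [inner_neg_left, hws]
    linarith
  have key : ∀ (ρ : X.M → ℝ) (ε : ℝ), ContMDiff (𝓡 n) 𝓘(ℝ, ℝ) ∞ ρ → HasCompactSupport ρ →
      (∀ i y, |dv X i ρ y| ≤ ε) → ‖mul (Eu N) μ ρ v‖ ≤ n * (ε * ‖v‖) := fun ρ ε h1 h2 h3 => by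
    have hρ := hB.of_cpt h1 h2
    obtain ⟨a1, a2⟩ := hWS n N X S μ hμ hc.sc _ _ hW ρ hρ
    obtain ⟨C, hC⟩ := a2 h2
    have e1 : mul (Eu N) μ ρ (-cst μ w v) = -cst μ w (mul (Eu N) μ ρ v) := by
      rw [map_neg]
      exact congrArg (fun A : Lp (Eu N) 2 μ →L[ℝ] Lp (Eu N) 2 μ => -A v)
        (hM.mul_cst (hB.bm hρ).1 w)
    rw [e1] at a1
    set u := mul (Eu N) μ ρ v
    set c := cg X S μ (fun i => dv X i ρ) v with hcg
    have b1 : ⟪-cst μ w (-cst μ w u + c), u⟫_ℝ = 0 :=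
      dr_approx (IsT X S) (cl μ) (fun s => cst μ w (cl μ (dir X S s))) hsk (M := C)
        (fun s hs => by
          have := a1 _ (hK.w hw hs)
          rw [hdirw hs, ← (hM.cst_cl w (hm s hs).1).2, inner_neg_right] at this
          rw [inner_neg_left, hws, ← this, neg_neg])
        fun η hη => by
          obtain ⟨f, f1, f2, f3⟩ := hC η hη
          exact ⟨f, f1, f2, by rw [hM.cst_norm w hwn]; exact f3⟩
    rw [inner_neg_left, neg_eq_zero, hws, inner_add_left, inner_neg_left,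
      real_inner_self_eq_norm_sq, hM.cst_norm w hwn] at b1
    have b2 := real_inner_le_norm c (cst μ w u)
    rw [hM.cst_norm w hwn] at b2
    have b3 : ‖c‖ ≤ n * (ε * ‖v‖) := by
      rw [hcg, cg, sum_apply]
      refine (norm_sum_le_of_le (n := fun _ => ε * ‖v‖) _ fun i _ => ?_).trans (by simp)
      rw [mul_apply_eq_comp, hM.cst_norm _ (hA.gam_norm i)]
      exact hM.mul_norm (hB.meas h1 i) (h3 i) v
    refine le_trans ?_ b3
    rcases (norm_nonneg u).eq_or_lt with h | h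
    · rw [← h]; exact norm_nonneg _
    · nlinarith
  have hz : ∀ K : Set X.M, IsCompact K → ∀ᵐ y ∂μ, y ∈ K → v y = 0 := fun K hKc => by
    have m1 : Measurable (K.indicator fun _ => (1 : ℝ)) :=
      measurable_const.indicator hKc.isClosed.measurableSet
    have m2 : ∀ y, |K.indicator (fun _ => (1 : ℝ)) y| ≤ 1 := fun y => by
      by_cases h : y ∈ K <;> simp [h]
    have m3 : mul (Eu N) μ (K.indicator fun _ => (1 : ℝ)) v = 0 := by
      rw [← norm_le_zero_iff]
      refine le_of_forall_pos_le_add fun δ hδ => ?_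
      obtain ⟨ρ, r1, r2, r3, r4⟩ := hc.cut K hKc (δ / (n * ‖v‖ + 1)) (by positivity)
      have e : (fun y => K.indicator (fun _ => (1 : ℝ)) y * ρ y) = K.indicator fun _ => (1 : ℝ) :=
        funext fun y => by by_cases h : y ∈ K <;> simp [h, r3]
      have k1 := (hM.mul_mul ⟨m1, 1, m2⟩ (hB.bm (hB.of_cpt r1 r2)).1).2
      rw [e] at k1
      have k2 := hM.mul_norm m1 m2 (mul (Eu N) μ ρ v)
      have k3 := key ρ _ r1 r2 r4
      have k4 : n * (δ / (n * ‖v‖ + 1) * ‖v‖) ≤ δ := by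
        rw [div_mul_eq_mul_div, mul_div_assoc', div_le_iff₀ (by positivity)]
        nlinarith
      rw [k1, mul_apply_eq_comp]
      linarith
    have m4 := hM.mul_ae ⟨m1, 1, m2⟩ v
    rw [m3] at m4
    filter_upwards [m4, Lp.coeFn_zero (Eu N) 2 μ] with y h1 h2 hy
    rw [h2] at h1
    simpa [hy] using h1.symm
  rw [Lp.eq_zero_iff_ae_eq_zero]
  filter_upwards [ae_all_iff.2 fun k => hz _ (isCompact_compactCovering X.M k)] with y hy
  obtain ⟨k, hk⟩ := exists_mem_compactCovering y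
  exact hy k hk

end Pool.Agent.Lib.AN
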