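import Pool.Agent.Lib.AN.Blue
import Pool.Agent.Lib.ANA.CylY

/-! Block EXT. -/

noncomputable section

open Manifold Set
open scoped ContDiff

namespace Pool.Agent.Lib.AN

open CX ANA.Cyl ANA.CylB

theorem stEXT : St_EXT := fun G _ m x =>
  { closed := fun _ hs => isClosed_cyl x hs
    cpt := fun s hs => by
      convert isCompact_ht_le x s using 1
      ext p
      rw [mem_compl_iff, ← lt_ht_iff x hs.le, not_lt]
      rfl
    ext := fun g η hg hη s hs h0 => by
      refine ⟨pull x.j (O x) (fun z => η (z.2 0) * g z.1) 0,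
        contMDiff_pull x hs (fun z _ => ((hη.contMDiff.comp (contMDiff_t x)).mul
          (hg.comp contMDiff_fst)) z) fun z _ hz => by rw [h0 _ hz.le, zero_mul],
        fun y t ht => pull_j (inj x) _ _ (z := (y, t)) ht, fun p hp => ?_⟩
      by_cases h : p ∈ x.j '' O x
      · obtain ⟨z, hz, rfl⟩ := h
        rw [pull_j (inj x) _ _ hz, h0 _ (le_of_not_ge fun h => hp ⟨z, h, rfl⟩), zero_mul]
      · exact pull_off _ _ h }

end Pool.Agent.Lib.AN
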