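import Pool.Agent.Lib.AN.ALGB

/-! Block GAU. -/

noncomputable section

open Set Function Filter Topology MeasureTheory CliffordAlgebra
open scoped Manifold ContDiff InnerProductSpace

namespace Pool.Agent.Lib.AN

open CX SMG
open ANA (gam_cl sm dd_eq ga_eq mem_fr Fm)

theorem stGAU : St_GAU := fun n N X S =>
  { nabL := fun {a b y} ha hb u hu i => by
      have h := orth_rot' (X.spin _ _ _ ⟨ha, hb⟩) i
      simp only [algb_nabL, tr, nab_gauge X S ha hb hu, algb_om, Finset.smul_sum, smul_smul]
      rw [Finset.sum_comm]
      simp [← Finset.sum_smul, h]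
    dirac := fun ha hb _ hu => dirac_gauge X S ha hb hu
    scal := fun ha => scal_gauge X ha }

end Pool.Agent.Lib.AN
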