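import Pool.Agent.Lib.AN.Blue

/-! KAP: curvature bounds. -/

namespace Pool.Agent.Lib.AN

open Set Filter Topology CX

theorem KAP.cont (hLOC : St_LOC) (hGAU : St_GAU) {n : ℕ} (X : SM n) : Continuous X.scal := by
  refine continuous_iff_continuousAt.2 fun y => ?_
  obtain ⟨a, ha⟩ := X.cover y
  have h := ((hLOC n 0 X (sp0 n)).scalL_sm a).continuousOn.congr
    fun z hz => ((hGAU n 0 X (sp0 n)).scal hz).symm
  exact h.continuousAt ((X.isOpen a).mem_nhds ha)

theorem stKAP (hLOC : St_LOC) (hGAU : St_GAU) (hCYL : St_CYL) : St_KAP := by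
  intro G _ m N x _
  have hc := x.cpt
  have hX := KAP.cont hLOC hGAU x.X
  have hN := KAP.cont hLOC hGAU x.N
  obtain ⟨C1, h1⟩ := x.core_cpt.bddBelow_image hX.continuousOn
  obtain ⟨C2, h2⟩ := isCompact_univ.bddBelow_image hN.continuousOn
  have hout : ∀ p ∉ (x.j '' {z | 1 < z.2 0})ᶜ, ∃ y, x.X.scal p = x.N.scal y := fun p hp => by
    obtain ⟨⟨y, t⟩, ht, rfl⟩ := not_not.1 hp
    exact ⟨y, (hCYL G m x).scal y t (one_pos.trans ht)⟩
  refine ⟨⟨-min C1 C2, fun p => ?_⟩, fun hpos => ?_⟩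
  · rw [neg_neg]
    by_cases hp : p ∈ (x.j '' {z | 1 < z.2 0})ᶜ
    · exact (min_le_left _ _).trans (h1 ⟨p, hp, rfl⟩)
    · obtain ⟨y, hy⟩ := hout p hp
      exact (min_le_right _ _).trans (hy ▸ h2 ⟨y, trivial, rfl⟩)
  · obtain ⟨κ, hκ, h3⟩ := isCompact_univ.exists_forall_le' hN.continuousOn fun y _ => hpos y
    refine ⟨((x.j '' {z | 1 < z.2 0})ᶜ).indicator fun _ => κ + |C1| + 1, κ / 4,
      ⟨measurable_const.indicator x.core_cpt.isClosed.measurableSet, |κ + |C1| + 1|, fun p => ?_⟩,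
      HasCompactSupport.intro x.core_cpt fun p hp => indicator_of_notMem hp _, by positivity,
      fun p => ?_⟩
    · by_cases hp : p ∈ (x.j '' {z | 1 < z.2 0})ᶜ
      · rw [indicator_of_mem hp]
      · rw [indicator_of_notMem hp, abs_zero]
        exact abs_nonneg _
    · by_cases hp : p ∈ (x.j '' {z | 1 < z.2 0})ᶜ
      · rw [indicator_of_mem hp]
        have a1 : C1 ≤ x.X.scal p := h1 ⟨p, hp, rfl⟩
        have a2 := neg_abs_le C1
        have a3 := abs_nonneg C1
        nlinarith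
      · rw [indicator_of_notMem hp]
        obtain ⟨y, hy⟩ := hout p hp
        have := h3 y trivial
        rw [hy]
        linarith

end Pool.Agent.Lib.AN
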