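import Pool.Agent.Lib.AN.Blue
import Pool.Agent.Lib.ANA.Div

/-! Blocks LOC, GREEN and PART. -/

noncomputable section

open Set Filter Topology MeasureTheory
open scoped Manifold ContDiff InnerProductSpace

namespace Pool.Agent.Lib.AN

open CX ANA

variable {n N : ℕ} (X : SM n) (S : Spinor n N)

lemma nabL_eq (a : ℕ) (i : Fin n) (u : X.M → Eu N) :
    nabL X S a i u = Fm.nab (X.F a) (gam S) i u := by
  funext x
  simp only [nabL, Fm.nab, Fm.con, LICH.lam, gam, map_mul, _root_.smul_apply,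
    _root_.sum_apply, dd_eq, ga_eq]

lemma scalL_eq (a : ℕ) : scalL X a = Fm.scal (X.F a) := rfl

lemma Gr.mul_gam {w : Eu N →L[ℝ] Eu N} (h : Gr S w) (i : Fin n) : w * gam S i = -(gam S i * w) :=
  ContinuousLinearMap.ext fun u => h.anti _ u

theorem stLOC : St_LOC := fun _ _ X S =>
  { ga_sm := fun a i j k _ hy => ((sm X a).ga_smooth hy i j k).contMDiffWithinAt
    scalL_sm := fun a _ hy => ((sm X a).scal_smooth hy).contMDiffWithinAt
    dd_sm := fun hy hu i => (sm X _).dd_smooth hy hu i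
    nabL_sm := fun hy hu i => by rw [nabL_eq]; exact (sm X _).nab_smooth hy hu _ i
    dirac_sm := fun hy hu => by rw [ANA.dirac_eq]; exact (sm X _).dir_smooth hy hu _
    dd_congr := fun h a _ => Fm.dd_congr (X.F a) h
    dd_const := fun c a _ _ => Fm.dd_const (X.F a) c
    dd_add := fun hu hv a _ => Fm.dd_add (X.F a) hu hv
    dd_sum := fun _ _ _ h a _ => Fm.dd_sum (X.F a) h
    dd_smul := fun hf hu a _ => Fm.dd_smul (X.F a) hf hu
    dd_comp := fun {_ W' _ _ _ _ g u y} hg hu a i => by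
      have h1 := mfderiv_comp y hg.mdifferentiableAt hu
      rw [mfderiv_eq_fderiv] at h1
      exact congrArg (fun L : Eu _ →L[ℝ] W' => L (X.e a i y)) h1
    nabL_congr := fun h a i => by simp only [nabL_eq]; exact Fm.nab_congr _ h
    nabL_zero := fun h a i => by
      rw [nabL_eq]; exact Fm.nab_zero _ (notMem_tsupport_iff_eventuallyEq.1 h)
    nabL_add := fun hu hv a i => by simp only [nabL_eq]; exact Fm.nab_add _ hu hv
    nabL_smul := fun hf hu a i => by simp only [nabL_eq]; exact Fm.nab_smul _ hf hu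
    nabL_w := fun hw _ _ hu a i => by simp only [nabL_eq]; exact Fm.nab_anti _ (hw.mul_gam S) hu }

theorem stGREEN : St_GREEN := fun _ _ X S μ hμ _ a _ u v hu hv => by
  have hs : tsupport v ⊆ X.U a := fun y hy => (hv.sub hy).1
  have h1 : ∀ y ∈ tsupport v, ContMDiffAt _ _ ∞ u y := fun y hy =>
    hu.contMDiffAt ((X.isOpen a).mem_nhds (hs hy))
  have h2 : ∀ y ∈ tsupport v, ContMDiffAt _ _ 1 v y := fun y _ => (hv.sm y).of_le (by norm_cast)
  simp only [ANA.dirac_eq, nabL_eq, scalL_eq]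
  exact ⟨integral_dir hμ (sm X a) (on_F X a) (gam_cl S) (fun y hy => (h1 y hy).of_le (by norm_cast))
    h2 hv.cpt hs, integral_lich hμ (sm X a) (on_F X a) (gam_cl S)
      (fun y hy => (h1 y hy).of_le (by norm_cast)) h2 hv.cpt hs⟩

theorem stPART4 : St_PART := fun _ _ _ _ hK O hO => exists_part' hK O hO

end Pool.Agent.Lib.AN
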