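import Pool.Agent.Lib.AN.Blue
import Pool.Agent.Lib.CX.Mul

/-! Block MUL: classes, multiplication operators, constant matrices. -/

noncomputable section

open Set Function Filter MeasureTheory
open scoped InnerProductSpace ENNReal

namespace Pool.Agent.Lib.AN

open CX

namespace MUL

variable {α V : Type} [MeasurableSpace α] [NormedAddCommGroup V] [InnerProductSpace ℝ V]
  {μ : Measure α}

omit [InnerProductSpace ℝ V] in
theorem cl_ae {s : α → V} (h : MemLp s 2 μ) : cl μ s =ᵐ[μ] s := by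
  rw [cl, dif_pos h]; exact h.coeFn_toLp

omit [InnerProductSpace ℝ V] in
theorem cl_eq {s : α → V} {f : Lp V 2 μ} (h : f =ᵐ[μ] s) : cl μ s = f :=
  Lp.ext ((cl_ae ((Lp.memLp f).ae_eq h)).trans h.symm)

omit [InnerProductSpace ℝ V] in
theorem cl_congr {s t : α → V} (h : s =ᵐ[μ] t) : cl μ s = cl μ t := by
  by_cases hs : MemLp s 2 μ
  · exact (cl_eq ((cl_ae hs).trans h)).symm
  · rw [cl, cl, dif_neg hs, dif_neg fun ht => hs (ht.ae_eq h.symm)]

omit [InnerProductSpace ℝ V] in
theorem cl_zero : cl μ (fun _ => (0 : V)) = 0 := cl_eq (Lp.coeFn_zero _ _ _)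

omit [InnerProductSpace ℝ V] in
theorem cl_add {s t : α → V} (hs : MemLp s 2 μ) (ht : MemLp t 2 μ) :
    cl μ (fun y => s y + t y) = cl μ s + cl μ t := by
  refine cl_eq ?_
  filter_upwards [Lp.coeFn_add (cl μ s) (cl μ t), cl_ae hs, cl_ae ht] with y h1 h2 h3
  exact h1.trans (congrArg₂ (· + ·) h2 h3)

theorem cl_smul (c : ℝ) (s : α → V) : cl μ (fun y => c • s y) = c • cl μ s := by
  by_cases hs : MemLp s 2 μ
  · refine cl_eq ?_
    filter_upwards [Lp.coeFn_smul c (cl μ s), cl_ae hs] with y h1 h2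
    exact h1.trans (congrArg (c • ·) h2)
  · rcases eq_or_ne c 0 with rfl | hc
    · simp only [zero_smul]; exact cl_zero
    · have h : ¬ MemLp (fun y => c • s y) 2 μ := fun h => hs (by
        have := h.const_smul c⁻¹
        refine this.ae_eq (ae_of_all _ fun y => ?_)
        simp [smul_smul, inv_mul_cancel₀ hc])
      rw [cl, cl, dif_neg h, dif_neg hs, smul_zero]

omit [InnerProductSpace ℝ V] in
theorem cl_sum {κ : Type} (F : Finset κ) (s : κ → α → V) (h : ∀ k ∈ F, MemLp (s k) 2 μ) :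
    cl μ (fun y => ∑ k ∈ F, s k y) = ∑ k ∈ F, cl μ (s k) := by
  classical
  induction F using Finset.induction_on with
  | empty => simpa using cl_zero
  | insert i F hi ih =>
    have h1 := fun j hj => h j (Finset.mem_insert_of_mem hj)
    simp only [Finset.sum_insert hi]
    rw [cl_add (h i (Finset.mem_insert_self _ _)) (memLp_finsetSum F h1), ih h1]

theorem inner_cl {s t : α → V} (hs : MemLp s 2 μ) (ht : MemLp t 2 μ) :
    Integrable (fun y => ⟪s y, t y⟫_ℝ) μ ∧ ⟪cl μ s, cl μ t⟫_ℝ = ∫ y, ⟪s y, t y⟫_ℝ ∂μ := by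
  refine ⟨(L2.integrable_inner (𝕜 := ℝ) (cl μ s) (cl μ t)).congr ?_,
    inner_of_ae (cl_ae hs) (cl_ae ht)⟩
  filter_upwards [cl_ae hs, cl_ae ht] with y h1 h2
  rw [h1, h2]

theorem top {ψ : α → ℝ} (h : Bm ψ) : MemLp ψ ∞ μ :=
  memLp_top_of_bound h.1.aestronglyMeasurable _ (ae_of_all _ h.2.choose_spec)

theorem mul_eq {ψ : α → ℝ} (h : MemLp ψ ∞ μ) : mul V μ ψ = mulS μ V ψ := by
  have h1 : ∃ A : Lp V 2 μ →L[ℝ] Lp V 2 μ, ∀ f, A f =ᵐ[μ] fun y => ψ y • f y := ⟨_, mulS_coe h⟩
  rw [mul, dif_pos h1]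
  exact eq_mulS h h1.choose_spec

theorem bm_mul {ψ χ : α → ℝ} (h : Bm ψ) (h' : Bm χ) : Bm fun y => ψ y * χ y := by
  obtain ⟨h1, C, h2⟩ := h
  obtain ⟨h3, D, h4⟩ := h'
  exact ⟨h1.mul h3, C * D, fun y => (abs_mul _ _).trans_le
    (mul_le_mul (h2 y) (h4 y) (abs_nonneg _) ((abs_nonneg _).trans (h2 y)))⟩

theorem bm_add {ψ χ : α → ℝ} (h : Bm ψ) (h' : Bm χ) : Bm fun y => ψ y + χ y := by
  obtain ⟨h1, C, h2⟩ := h
  obtain ⟨h3, D, h4⟩ := h'
  exact ⟨h1.add h3, C + D, fun y => (abs_add_le _ _).trans (add_le_add (h2 y) (h4 y))⟩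

theorem bm_const (c : ℝ) : Bm fun _ : α => c := ⟨measurable_const, |c|, fun _ => le_rfl⟩

theorem bm_sum {κ : Type} (F : Finset κ) (ψ : κ → α → ℝ) (h : ∀ k ∈ F, Bm (ψ k)) :
    Bm fun y => ∑ k ∈ F, ψ k y := by
  classical
  induction F using Finset.induction_on with
  | empty => simpa using bm_const 0
  | insert i F hi ih =>
    simp only [Finset.sum_insert hi]
    exact bm_add (h i (Finset.mem_insert_self _ _)) (ih fun j hj => h j (Finset.mem_insert_of_mem hj))

end MUL

open MUL in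
theorem stMUL : St_MUL := fun α V _ _ _ μ =>
  { cl_ae := cl_ae
    cl_coe := fun _ => cl_eq EventuallyEq.rfl
    cl_congr := cl_congr
    cl_zero := cl_zero
    cl_add := cl_add
    cl_smul := cl_smul
    cl_neg := fun s => by simpa using cl_smul (μ := μ) (-1) s
    cl_sum := cl_sum
    inner_cl := inner_cl
    norm_cl := fun hs => by
      simpa only [real_inner_self_eq_norm_sq] using inner_cl hs hs
    cst_cl := fun A s hs => ⟨A.comp_memLp' hs, (cl_eq (by
      filter_upwards [A.coeFn_compLpL (cl μ s), cl_ae hs] with y h1 h2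
      rw [h1, h2])).symm⟩
    cst_mul := fun A B => by
      rw [cst, cst, cst, ← mulOp_const, ← mulOp_const, ← mulOp_const,
        mulOp_mul (memLp_top_const A) (memLp_top_const B)]
    cst_one := by rw [cst, ← mulOp_const, mulOp_one]
    cst_inner := fun A B h f g => by
      rw [cst, cst, ← mulOp_const, ← mulOp_const]
      exact inner_mulOp (memLp_top_const A) (memLp_top_const B) (ae_of_all _ fun _ => h) f g
    cst_norm := fun A h f => by
      rw [Lp.norm_def, Lp.norm_def]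
      congr 1
      refine eLpNorm_congr_norm_ae ?_
      filter_upwards [A.coeFn_compLpL f] with y h1
      rw [h1, h]
    mul_ae := fun h f => by rw [mul_eq (top h)]; exact mulS_coe (top h) f
    mul_cl := fun {ψ s} h hs => by
      have h1 : mul V μ ψ (cl μ s) =ᵐ[μ] fun y => ψ y • s y := by
        rw [mul_eq (top h)]; exact mulS_coe' (top h) (cl_ae hs)
      exact ⟨(Lp.memLp _).ae_eq h1, (cl_eq h1).symm⟩
    mul_mul := fun h h' => ⟨bm_mul h h', by
      rw [mul_eq (top h), mul_eq (top h'), mul_eq (top (bm_mul h h')), mulS_mul (top h) (top h')]⟩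
    mul_add := fun h h' => ⟨bm_add h h', by
      rw [mul_eq (top h), mul_eq (top h'), mul_eq (top (bm_add h h')), mulS_add (top h) (top h')]⟩
    mul_sum := fun F ψ h => ⟨bm_sum F ψ h, by
      rw [mul_eq (top (bm_sum F ψ h)), mulS_sum F fun k hk => top (h k hk)]
      exact Finset.sum_congr rfl fun k hk => (mul_eq (top (h k hk))).symm⟩
    mul_const := fun c => ⟨bm_const c, by rw [mul_eq (top (bm_const c)), mulS_const]⟩
    mul_inner := fun h f g => by rw [mul_eq (top h)]; exact inner_mulS (top h) f g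
    mul_norm := fun {ψ C} h hC f => by
      have h1 : MemLp ψ ∞ μ := top ⟨h, C, hC⟩
      rw [mul_eq h1]
      refine Lp.norm_le_mul_norm_of_ae_le_mul ?_
      filter_upwards [mulS_coe h1 f] with y h2
      rw [h2, norm_smul]
      exact mul_le_mul_of_nonneg_right (hC y) (norm_nonneg _)
    mul_cst := fun h A => by rw [mul_eq (top h)]; exact mulS_comm_const A (top h) }

end Pool.Agent.Lib.AN
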