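import Pool.Agent.Lib.AN.Blue

/-! Block RAPI: the algebraic properties of the resolvent. -/

noncomputable section

open Set Function Filter Topology MeasureTheory CliffordAlgebra
open scoped Manifold ContDiff InnerProductSpace

namespace Pool.Agent.Lib.AN

open CX

variable {n N : ℕ} {X : SM n} {S : Spinor n N} {μ : Measure X.M} {w : Eu N →L[ℝ] Eu N}

/-- The class of `(D + w) s`. -/
theorem rapi_dw (hM : MulApi (Eu N) μ) (hC : CoreApi X S)
    (hm : ∀ s, IsT X S s → MemLp s 2 μ ∧ ∀ i, MemLp (nab X S i s) 2 μ) {s : X.M → Eu N}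
    (hs : IsT X S s) : cl μ (dw X S w s) = cl μ (dir X S s) + cst μ w (cl μ s) := by
  have h1 := hM.cst_cl w (hm s hs).1
  rw [h1.2, ← hM.cl_add (hm _ (hC.dir hs)).1 h1.1]
  rfl

/-- The class of the Clifford product of a gradient with a section. -/
theorem rapi_cg (hM : MulApi (Eu N) μ) {d : Fin n → X.M → ℝ} (hd : ∀ i, Bm (d i))
    {s : X.M → Eu N} (hs : MemLp s 2 μ) :
    (∀ i, MemLp (fun y => gam S i (d i y • s y)) 2 μ) ∧
      cg X S μ d (cl μ s) = cl μ fun y => ∑ i, gam S i (d i y • s y) := by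
  have h1 : ∀ i, MemLp (fun y => gam S i (d i y • s y)) 2 μ := fun i =>
    (hM.cst_cl (gam S i) (hM.mul_cl (hd i) hs).1).1
  refine ⟨h1, ?_⟩
  rw [hM.cl_sum Finset.univ (fun i y => gam S i (d i y • s y)) fun i _ => h1 i]
  unfold cg
  rw [sum_apply]
  refine Finset.sum_congr rfl fun i _ => ?_
  rw [mul_apply_eq_comp, (hM.mul_cl (hd i) hs).2,
    (hM.cst_cl (gam S i) (hM.mul_cl (hd i) hs).1).2]

/-- The Leibniz rule for `D + w` on classes. -/
theorem rapi_mul (hM : MulApi (Eu N) μ) (hB : SmApi X) (hC : CoreApi X S)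
    (hm : ∀ s, IsT X S s → MemLp s 2 μ ∧ ∀ i, MemLp (nab X S i s) 2 μ) {s : X.M → Eu N}
    (hs : IsT X S s) {ψ : X.M → ℝ} (hψ : Sm X ψ) :
    cl μ (dw X S w fun y => ψ y • s y) =
      mul (Eu N) μ ψ (cl μ (dw X S w s)) + cg X S μ (fun i => dv X i ψ) (cl μ s) := by
  have hsm : ∀ y ∈ tsupport s, ContMDiffAt (𝓡 n) 𝓘(ℝ, ℝ) ∞ ψ y := fun y _ => hψ.sm y
  have ht := hC.mul hs hsm
  have hb := hB.bm hψ
  have hg := rapi_cg (S := S) hM hb.2 (hm s hs).1
  have hd := hM.mul_cl hb.1 (hm _ (hC.dir hs)).1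
  have e1 : dir X S (fun y => ψ y • s y) =
      fun y => ψ y • dir X S s y + ∑ i, gam S i (dv X i ψ y • s y) := funext (hC.dir_mul hs hsm)
  have e2 := congrArg (fun A => A (cl μ s)) (hM.mul_cst hb.1 w)
  simp only [mul_apply_eq_comp] at e2
  rw [rapi_dw hM hC hm ht, rapi_dw hM hC hm hs, e1,
    hM.cl_add hd.1 (memLp_finsetSum _ fun i _ => hg.1 i), ← hd.2, ← hg.2,
    ← (hM.mul_cl hb.1 (hm s hs).1).2, map_add, e2]
  abel

theorem rapi_ext {R : Lp (Eu N) 2 μ →L[ℝ] Lp (Eu N) 2 μ}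
    {Nn : Fin n → Lp (Eu N) 2 μ →L[ℝ] Lp (Eu N) 2 μ} (hR : Res X S w μ R Nn)
    {A B : Lp (Eu N) 2 μ →L[ℝ] Lp (Eu N) 2 μ}
    (h : ∀ s, IsT X S s → A (cl μ (dw X S w s)) = B (cl μ (dw X S w s))) : A = B := by
  refine ContinuousLinearMap.ext fun η => ?_
  refine hR.dense.induction (P := fun η => A η = B η) ?_
    (isClosed_eq A.continuous B.continuous) η
  rintro _ ⟨s, hs, rfl⟩
  exact h s hs

theorem stRAPI (hMUL : St_MUL) (hSMB : St_SMB) (hCORE : St_CORE) (hMEM : St_MEM) (hLIC : St_LIC)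
    (hDENS : St_DENS) : St_RAPI := by
  intro n N X S μ hμ hσ w hw R Nn hR
  have hM := hMUL X.M (Eu N) μ
  have hB := hSMB n X
  have hC := hCORE n N X S
  have hm := hMEM n N X S μ hμ
  have hL := hLIC n N X S μ hμ hσ
  have hD := hDENS n N X S μ hμ hσ
  have hdw : ∀ {s}, IsT X S s → cl μ (dw X S w s) = cl μ (dir X S s) + cst μ w (cl μ s) :=
    fun hs => rapi_dw hM hC hm hs
  have hww : ∀ f, cst μ w (cst μ w f) = f := fun f => by
    have e : w * w = 1 := ContinuousLinearMap.ext hw.sq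
    have := congrArg (fun A => A f) (hM.cst_mul w w)
    simp only [mul_apply_eq_comp] at this
    rw [← this, e, hM.cst_one]; rfl
  have hsym : ∀ ξ η, ⟪R ξ, η⟫_ℝ = ⟪ξ, R η⟫_ℝ := by
    intro ξ η
    refine hR.dense.induction (P := fun ξ => ⟪R ξ, η⟫_ℝ = ⟪ξ, R η⟫_ℝ) ?_
      (isClosed_eq (by fun_prop) (by fun_prop)) ξ
    rintro _ ⟨s, hs, rfl⟩
    refine hR.dense.induction (P := fun η => ⟪R (cl μ (dw X S w s)), η⟫_ℝ =
      ⟪cl μ (dw X S w s), R η⟫_ℝ) ?_ (isClosed_eq (by fun_prop) (by fun_prop)) η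
    rintro _ ⟨t, ht, rfl⟩
    rw [hR.R_cl s hs, hR.R_cl t ht, hdw hs, hdw ht, inner_add_left, inner_add_right,
      hL.sym hs ht, hM.cst_inner w w hw.sym]
  refine ⟨hsym, ?_, ?_, ?_, ?_, ?_, ?_⟩
  · refine rapi_ext hR fun s hs => ?_
    have hs' := hC.w hw hs
    have e1 : dir X S (fun z => w (s z)) = fun y => -w (dir X S s y) := funext (hC.dir_w hw hs)
    have e2 : cl μ (fun z => w (s z)) = cst μ w (cl μ s) := (hM.cst_cl w (hm s hs).1).2.symm
    have e3 : cl μ (dw X S w fun z => w (s z)) = cl μ s - cst μ w (cl μ (dir X S s)) := by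
      rw [hdw hs', e1, hM.cl_neg, ← (hM.cst_cl w (hm _ (hC.dir hs)).1).2, e2, hww]
      abel
    have e4 := hR.R_cl _ hs'
    rw [e3, e2, map_sub] at e4
    simp only [add_apply, mul_apply_eq_comp,
      smul_apply]
    rw [hR.R_cl s hs, hdw hs, map_add, hww, map_add, ← e4, two_smul]
    abel
  · refine (injective_iff_map_eq_zero R).2 fun ξ hξ => ?_
    have h0 : ∀ η, ⟪ξ, η⟫_ℝ = 0 := by
      intro η
      refine hD.induction (P := fun η => ⟪ξ, η⟫_ℝ = 0) ?_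
        (isClosed_eq (by fun_prop) continuous_const) η
      rintro _ ⟨t, ht, rfl⟩
      rw [← hR.R_cl t ht, ← hsym, hξ, inner_zero_left]
    exact inner_self_eq_zero.1 (h0 ξ)
  · refine rapi_ext hR fun s hs => ?_
    simp only [add_apply, mul_apply_eq_comp,
      sum_apply, one_apply_eq_self]
    rw [hR.R_cl s hs]
    conv_rhs => rw [hdw hs]
    congr 1
    have e1 : dir X S s = fun y => ∑ i, gam S i (nab X S i s y) := funext (dir_eq X S s)
    rw [e1, hM.cl_sum Finset.univ (fun i y => gam S i (nab X S i s y))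
      fun i _ => (hM.cst_cl (gam S i) ((hm s hs).2 i)).1]
    refine Finset.sum_congr rfl fun i _ => ?_
    rw [hR.N_cl s hs, (hM.cst_cl (gam S i) ((hm s hs).2 i)).2]
  · intro ψ hψ
    refine rapi_ext hR fun s hs => ?_
    have ht := hC.mul hs fun y _ => hψ.sm y
    have e1 := hR.R_cl _ ht
    rw [rapi_mul hM hB hC hm hs hψ, ← (hM.mul_cl (hB.bm hψ).1 (hm s hs).1).2, map_add] at e1
    simp only [sub_apply, mul_apply_eq_comp]
    rw [hR.R_cl s hs, ← e1]
    abel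
  · intro ψ hψ j
    refine rapi_ext hR fun s hs => ?_
    have hsm : ∀ y ∈ tsupport s, ContMDiffAt (𝓡 n) 𝓘(ℝ, ℝ) ∞ ψ y := fun y _ => hψ.sm y
    have ht := hC.mul hs hsm
    have hb := hB.bm hψ
    have e1 := hR.N_cl _ ht j
    have e2 : nab X S j (fun y => ψ y • s y) =
        fun y => ψ y • nab X S j s y + dv X j ψ y • s y := funext (hC.nab_mul hs hsm j)
    have h1 := hM.mul_cl hb.1 ((hm s hs).2 j)
    have h2 := hM.mul_cl (hb.2 j) (hm s hs).1
    rw [rapi_mul hM hB hC hm hs hψ, e2, hM.cl_add h1.1 h2.1, ← h1.2, ← h2.2] at e1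
    simp only [add_apply, mul_apply_eq_comp]
    rw [hR.R_cl s hs, hR.N_cl s hs, e1]
  · intro χ κ hχ hκ η
    refine hR.dense.induction (P := fun η => ∑ j, ‖Nn j η‖ ^ 2 + κ * ‖R η‖ ^ 2 ≤
      ‖η - cst μ w (R η)‖ ^ 2 + ‖mul (Eu N) μ χ (R η)‖ ^ 2) ?_
      (isClosed_le (by fun_prop) (by fun_prop)) η
    rintro _ ⟨s, hs, rfl⟩
    have h1 := hM.mul_cl hχ (hm s hs).1
    have h2 := hM.norm_cl h1.1
    have h3 := hM.norm_cl (hm s hs).1
    have e1 : cl μ (dw X S w s) - cst μ w (cl μ s) = cl μ (dir X S s) := by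
      rw [hdw hs]; abel
    have e2 : ∑ j, ‖Nn j (cl μ (dw X S w s))‖ ^ 2 = ∑ j, ‖cl μ (nab X S j s)‖ ^ 2 :=
      Finset.sum_congr rfl fun j _ => by rw [hR.N_cl s hs]
    rw [hR.R_cl s hs, e1, e2, hL.lich hs, h1.2, h2.2, h3.2, add_assoc,
      ← integral_add (hL.int hs) h2.1, ← integral_const_mul]
    refine add_le_add le_rfl (integral_mono (h3.1.const_mul κ) ((hL.int hs).add h2.1) fun y => ?_)
    have h4 := hκ y
    have h5 : ‖χ y • s y‖ ^ 2 = χ y ^ 2 * ‖s y‖ ^ 2 := by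
      rw [norm_smul, mul_pow, Real.norm_eq_abs, sq_abs]
    have h6 := mul_le_mul_of_nonneg_right h4 (sq_nonneg ‖s y‖)
    simp only [h5]
    linarith

end Pool.Agent.Lib.AN
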