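import Pool.Agent.Lib.AN.Blue
import Pool.Agent.Lib.TH.Bridge

/-! Rellich in a chart, and weak solutions are strong in a chart. -/

noncomputable section

open Set Function Filter Topology MeasureTheory
open scoped Manifold ContDiff InnerProductSpace

namespace Pool.Agent.Lib.AN

open CX TH

variable {n N : ℕ} {X : SM n} {S : Spinor n N} {μ : Measure X.M} {x₀ : X.M} {a : ℕ}

lemma isE_iff {u : X.M → Eu N} : IsE X a (X.ct x₀).source u ↔ MT (X.W x₀ a) u :=
  ⟨fun h => ⟨h.sm, h.cpt, h.sub.trans (inter_comm _ _).subset⟩,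
    fun h => ⟨h.1, h.2.1, h.2.2.trans (inter_comm _ _).subset⟩⟩

lemma tsupport_loc (s : X.M → Eu N) : tsupport (loc X S a s) ⊆ tsupport s :=
  closure_mono fun p hp h => hp (by simp [loc, h])

lemma inner_glob (hMUL : St_MUL) (hALG : St_ALGB) (hCORE : St_CORE) (hMEM : St_MEM)
    (hμ : X.IsVol μ) (ψ φ : X.M → Eu N) (hψ : MT (X.W x₀ a) ψ) (hφ : MT (X.W x₀ a) φ) :
    ⟪cl μ (glob X S a ψ), cl μ (glob X S a φ)⟫_ℝ = ∫ p, ⟪ψ p, φ p⟫_ℝ ∂μ := by
  rw [((hMUL _ _ μ).inner_cl (hMEM _ _ X S μ hμ _ ((hCORE _ _ X S).glob (isE_iff.2 hψ)).1).1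
    (hMEM _ _ X S μ hμ _ ((hCORE _ _ X S).glob (isE_iff.2 hφ)).1).1).2]
  congr 1; ext p
  by_cases hp : p ∈ tsupport ψ
  · exact (hALG _ _ X S).tr_inner ((hALG _ _ X S).mem_fr p) (hψ.2.2 hp).2 _ _
  · simp [glob, image_eq_zero_of_notMem_tsupport hp]

theorem stREL1 (hMUL : St_MUL) (hALG : St_ALGB) (hCORE : St_CORE) (hMEM : St_MEM) : St_REL1 := by
  intro n N X S μ hμ _ x₀ a K hK hKW δ hδ
  obtain ⟨m, F, G, -, -, h⟩ := TH.rellich S 1 hμ (cls := fun u => cl μ (glob X S a u))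
    (inner_glob hMUL hALG hCORE hMEM hμ) (fun _ _ => rfl) hK hKW hδ
  refine ⟨∑ i, (innerSL ℝ (cl μ (glob X S a (G i)))).smulRight (cl μ (glob X S a (F i))), ?_,
    fun f hf hs => ?_⟩
  · refine Finset.sum_induction _ (fun A : Lp (Eu N) 2 μ →L[ℝ] Lp (Eu N) 2 μ => IsCompactOperator A)
      (fun A B hA hB => hA.add hB) isCompactOperator_zero fun i _ => ?_
    exact ((isCompactOperator_of_locallyCompactSpace_rng (ContinuousLinearMap.toSpanSingleton ℝ
      (cl μ (glob X S a (F i))))).comp_clm (innerSL ℝ (cl μ (glob X S a (G i)))) :)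
  obtain ⟨h1, h2⟩ := (hCORE _ _ X S).unglob (a := a) (O := (X.ct x₀).source) hf
    ((hs.trans hKW).trans (inter_comm _ _).subset)
  have h3 := h _ (isE_iff.1 h1) ((tsupport_loc f).trans hs)
  have h4 := ((hCORE _ _ X S).glob h1).2.2.2
  simp only [h2, ContinuousLinearMap.one_apply] at h3 h4
  rw [h4]
  simpa using h3

end Pool.Agent.Lib.AN
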