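import Pool.Agent.Lib.AN.Blue

/-! Block RES: the resolvent exists. -/

noncomputable section

open Set Function Filter Topology MeasureTheory CliffordAlgebra
open scoped Manifold ContDiff InnerProductSpace

namespace Pool.Agent.Lib.AN

open CX

/-- Extension of a bounded correspondence from a dense range. -/
theorem res_ext {α H : Type} [AddCommGroup α] [Module ℝ α] [NormedAddCommGroup H]
    [NormedSpace ℝ H] [CompleteSpace H] (P : α → Prop) (h0 : P 0)
    (hadd : ∀ {s t}, P s → P t → P (s + t)) (hsm : ∀ (c : ℝ) {s}, P s → P (c • s)) (e f : α → H)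
    (ea : ∀ {s t}, P s → P t → e (s + t) = e s + e t) (es : ∀ (c : ℝ) {s}, P s → e (c • s) = c • e s)
    (fa : ∀ {s t}, P s → P t → f (s + t) = f s + f t) (fs : ∀ (c : ℝ) {s}, P s → f (c • s) = c • f s)
    (hd : Dense {η | ∃ s, P s ∧ η = e s}) (C : ℝ) (hC : ∀ s, P s → ‖f s‖ ≤ C * ‖e s‖) :
    ∃ R : H →L[ℝ] H, ∀ s, P s → R (e s) = f s := by
  let T : Submodule ℝ α :=
    { carrier := {s | P s}, add_mem' := hadd, zero_mem' := h0, smul_mem' := fun c _ h => hsm c h }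
  let e' : T →ₗ[ℝ] H := ⟨⟨fun s => e s.1, fun s t => ea s.2 t.2⟩, fun c s => es c s.2⟩
  let f' : T →ₗ[ℝ] H := ⟨⟨fun s => f s.1, fun s t => fa s.2 t.2⟩, fun c s => fs c s.2⟩
  have hd' : DenseRange e' := hd.mono (by rintro _ ⟨s, hs, rfl⟩; exact ⟨⟨s, hs⟩, rfl⟩)
  exact ⟨f'.extendOfNorm e', fun s hs =>
    LinearMap.extendOfNorm_eq hd' ⟨C, fun t => hC t.1 t.2⟩ ⟨s, hs⟩⟩

theorem stRES (hMUL : St_MUL) (hCORE : St_CORE) (hMEM : St_MEM) (hLIC : St_LIC) (hDR : St_DR) :
    St_RES := by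
  rintro n N X S μ hμ hc ⟨C, hC⟩ w hw
  have hM := hMUL X.M (Eu N) μ
  have hK := hCORE n N X S
  have hm := hMEM n N X S μ hμ
  have hL := hLIC n N X S μ hμ hc.sc
  have hD := hDR n N X S μ hμ hc w hw
  have hdw : ∀ {s}, IsT X S s → cl μ (dw X S w s) = cl μ (dir X S s) + cst μ w (cl μ s) :=
    fun {s} hs => by
      have h1 := hM.cst_cl w (hm s hs).1
      rw [h1.2, ← hM.cl_add (hm _ (hK.dir hs)).1 h1.1]
      rfl
  have hwn : ∀ u, ‖w u‖ = ‖u‖ := fun u => by
    rw [← sq_eq_sq₀ (norm_nonneg _) (norm_nonneg _), ← real_inner_self_eq_norm_sq,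
      ← real_inner_self_eq_norm_sq, hw.sym, hw.sq]
  -- Pythagoras
  have hpy : ∀ {s}, IsT X S s →
      ‖cl μ (dw X S w s)‖ ^ 2 = ‖cl μ (dir X S s)‖ ^ 2 + ‖cl μ s‖ ^ 2 := fun {s} hs => by
    have h1 := hL.sym hs (hK.w hw hs)
    have h2 : dir X S (fun y => w (s y)) = fun y => -w (dir X S s y) := funext (hK.dir_w hw hs)
    rw [h2, hM.cl_neg, ← (hM.cst_cl w (hm s hs).1).2, ← (hM.cst_cl w (hm _ (hK.dir hs)).1).2,
      inner_neg_right] at h1
    have h3 : ⟪cl μ (dir X S s), cst μ w (cl μ s)⟫_ℝ = 0 := by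
      have h4 := hM.cst_inner w w hw.sym (cl μ s) (cl μ (dir X S s))
      have h5 := real_inner_comm (cl μ (dir X S s)) (cst μ w (cl μ s))
      linarith
    rw [hdw hs, norm_add_sq_real, h3, hM.cst_norm w hwn]
    ring
  have ea : ∀ {s t}, IsT X S s → IsT X S t →
      cl μ (dw X S w (s + t)) = cl μ (dw X S w s) + cl μ (dw X S w t) := fun {s t} hs ht => by
    have h1 : dir X S (s + t) = fun y => dir X S s y + dir X S t y := funext (hK.dir_add hs ht)
    have h2 : cl μ (s + t) = cl μ s + cl μ t := hM.cl_add (hm s hs).1 (hm t ht).1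
    rw [hdw (s := s + t) (hK.add hs ht), hdw hs, hdw ht, h1,
      hM.cl_add (hm _ (hK.dir hs)).1 (hm _ (hK.dir ht)).1, h2, map_add]
    abel
  have es : ∀ (c : ℝ) {s}, IsT X S s → cl μ (dw X S w (c • s)) = c • cl μ (dw X S w s) :=
    fun c {s} hs => by
      have h1 : dir X S (c • s) = fun y => c • dir X S s y := funext (hK.dir_smul c hs)
      have h2 : cl μ (c • s) = c • cl μ s := hM.cl_smul c s
      rw [hdw (s := c • s) (hK.smul c hs), hdw hs, h1, hM.cl_smul, h2, map_smul, smul_add]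
  obtain ⟨R, hR⟩ := res_ext (IsT X S) hK.zero hK.add hK.smul (fun s => cl μ (dw X S w s)) (cl μ)
    ea es (fun hs ht => hM.cl_add (hm _ hs).1 (hm _ ht).1) (fun c s _ => hM.cl_smul c s) hD 1
    fun s hs => by
      rw [one_mul, ← sq_le_sq₀ (norm_nonneg _) (norm_nonneg _), hpy hs]
      exact le_add_of_nonneg_left (sq_nonneg _)
  have hN : ∀ j, ∃ T : Lp (Eu N) 2 μ →L[ℝ] Lp (Eu N) 2 μ,
      ∀ s, IsT X S s → T (cl μ (dw X S w s)) = cl μ (nab X S j s) := fun j =>
    res_ext (IsT X S) hK.zero hK.add hK.smul (fun s => cl μ (dw X S w s))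
      (fun s => cl μ (nab X S j s)) ea es
      (fun {s t} hs ht => by
        have h1 : nab X S j (s + t) = fun y => nab X S j s y + nab X S j t y :=
          funext (hK.nab_add hs ht j)
        rw [h1, hM.cl_add ((hm _ hs).2 j) ((hm _ ht).2 j)])
      (fun c s hs => by
        have h1 : nab X S j (c • s) = fun y => c • nab X S j s y := funext (hK.nab_smul c hs j)
        rw [h1, hM.cl_smul]) hD (1 + |C|) fun s hs => by
      have h1 := hL.lich hs
      have h2 := hM.norm_cl (hm s hs).1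
      have h3 : -|C| * ‖cl μ s‖ ^ 2 ≤ ∫ y, X.scal y / 4 * ‖s y‖ ^ 2 ∂μ := by
        rw [h2.2, ← integral_const_mul]
        refine integral_mono (h2.1.const_mul _) (hL.int hs) fun y => ?_
        refine mul_le_mul_of_nonneg_right ?_ (sq_nonneg _)
        linarith [hC y, le_abs_self C, abs_nonneg C]
      have h4 : ‖cl μ (nab X S j s)‖ ^ 2 ≤ ∑ i, ‖cl μ (nab X S i s)‖ ^ 2 :=
        Finset.single_le_sum (f := fun i => ‖cl μ (nab X S i s)‖ ^ 2) (fun _ _ => sq_nonneg _)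
          (Finset.mem_univ j)
      rw [← sq_le_sq₀ (norm_nonneg _) (by positivity), mul_pow, hpy hs]
      have h5 := abs_nonneg C
      nlinarith [sq_nonneg ‖cl μ (dir X S s)‖, sq_nonneg ‖cl μ s‖,
        mul_nonneg h5 (sq_nonneg ‖cl μ (dir X S s)‖), mul_nonneg h5 (sq_nonneg ‖cl μ s‖),
        mul_nonneg (mul_nonneg h5 h5) (sq_nonneg ‖cl μ (dir X S s)‖),
        mul_nonneg (mul_nonneg h5 h5) (sq_nonneg ‖cl μ s‖)]
  choose Nn hNn using hN
  exact ⟨R, Nn, hR, fun s hs j => hNn j s hs, hD⟩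

end Pool.Agent.Lib.AN
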