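import Pool.Agent.Lib.AN.Blue

/-! Block SMB: smooth functions and their gradients. -/

noncomputable section

open Set Function Filter Topology MeasureTheory
open scoped Manifold ContDiff

namespace Pool.Agent.Lib.AN

open CX

namespace SMB

variable {n : ℕ} {X : SM n}

theorem sq_sum (A : AlgApi X (sp0 n)) (ψ : X.M → ℝ) {a : ℕ} {y : X.M} (hy : y ∈ X.U a) :
    ∑ i, dv X i ψ y ^ 2 = ∑ i, X.dd a i ψ y ^ 2 := by
  have h1 : ∀ i, dv X i ψ y ^ 2 = ∑ j, ∑ k, X.dd a j ψ y * X.dd a k ψ y *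
      (om X (X.fr y) a y i j * om X (X.fr y) a y i k) := fun i => by
    rw [dv, A.dd_om ψ (A.mem_fr y) hy i, sq, Finset.sum_mul_sum]
    refine Finset.sum_congr rfl fun j _ => Finset.sum_congr rfl fun k _ => ?_
    simp only [smul_eq_mul]
    ring
  simp only [h1]
  rw [Finset.sum_comm]
  refine Finset.sum_congr rfl fun j _ => ?_
  rw [Finset.sum_comm]
  simp only [← Finset.mul_sum, A.om_col (A.mem_fr y) hy]
  simp [sq]

theorem dd_cont (L : LocApi X (sp0 n)) {ψ : X.M → ℝ} (h : ContMDiff (𝓡 n) 𝓘(ℝ, ℝ) ∞ ψ) (a : ℕ)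
    (i : Fin n) : ContinuousOn (X.dd a i ψ) (X.U a) :=
  fun y hy => (L.dd_sm hy (h y) i).continuousAt.continuousWithinAt

theorem meas (A : AlgApi X (sp0 n)) (L : LocApi X (sp0 n)) {ψ : X.M → ℝ}
    (h : ContMDiff (𝓡 n) 𝓘(ℝ, ℝ) ∞ ψ) (i : Fin n) : Measurable (dv X i ψ) := by
  classical
  have h1 : ∀ a, Measurable ((X.U a).piecewise (X.dd a i ψ) 0) := fun a =>
    (dd_cont L h a i).measurable_piecewise continuousOn_const (X.isOpen a).measurableSet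
  have h2 : Measurable fun p : X.M × ℕ => (X.U p.2).piecewise (X.dd p.2 i ψ) 0 p.1 :=
    measurable_from_prod_countable_left h1
  have h3 := h2.comp (measurable_id.prodMk A.meas_fr)
  convert h3 using 1
  funext y
  simp only [comp, id, piecewise_eq_of_mem _ _ _ (A.mem_fr y), dv]

theorem sq_cont (A : AlgApi X (sp0 n)) (L : LocApi X (sp0 n)) {ψ : X.M → ℝ}
    (h : ContMDiff (𝓡 n) 𝓘(ℝ, ℝ) ∞ ψ) : Continuous fun y => ∑ i, dv X i ψ y ^ 2 := by
  refine continuous_iff_continuousAt.2 fun y => ?_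
  have hU := (X.isOpen (X.fr y)).mem_nhds (A.mem_fr y)
  have h1 : ContinuousAt (fun z => ∑ i, X.dd (X.fr y) i ψ z ^ 2) y :=
    (continuousOn_finsetSum _ fun i _ => (dd_cont L h (X.fr y) i).pow 2).continuousAt hU
  refine h1.congr ?_
  filter_upwards [hU] with z hz
  exact (sq_sum A ψ hz).symm

theorem bd_on (A : AlgApi X (sp0 n)) (L : LocApi X (sp0 n)) {ψ : X.M → ℝ}
    (h : ContMDiff (𝓡 n) 𝓘(ℝ, ℝ) ∞ ψ) (K : Set X.M) (hK : IsCompact K) :
    ∃ C, ∀ i, ∀ y ∈ K, |dv X i ψ y| ≤ C := by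
  obtain ⟨C, hC⟩ := hK.exists_bound_of_continuousOn (sq_cont A L h).continuousOn
  refine ⟨C + 1, fun i y hy => ?_⟩
  have h1 : dv X i ψ y ^ 2 ≤ ∑ i, dv X i ψ y ^ 2 :=
    Finset.single_le_sum (f := fun i => dv X i ψ y ^ 2) (fun _ _ => sq_nonneg _) (Finset.mem_univ i)
  have h2 := (le_abs_self _).trans (hC y hy)
  have h3 := sq_abs (dv X i ψ y)
  nlinarith [sq_nonneg (|dv X i ψ y| - 1)]

theorem dv_zero (L : LocApi X (sp0 n)) {ψ : X.M → ℝ} {y : X.M} (hy : y ∉ tsupport ψ) (i : Fin n) :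
    dv X i ψ y = 0 := by
  rw [dv, L.dd_congr (v := fun _ => 0) (notMem_tsupport_iff_eventuallyEq.1 hy), L.dd_const]

theorem dv_mul (L : LocApi X (sp0 n)) {ψ χ : X.M → ℝ} {y : X.M}
    (h : MDifferentiableAt (𝓡 n) 𝓘(ℝ, ℝ) ψ y) (h' : MDifferentiableAt (𝓡 n) 𝓘(ℝ, ℝ) χ y)
    (i : Fin n) : dv X i (fun z => ψ z * χ z) y = dv X i ψ y * χ y + ψ y * dv X i χ y := by
  have := L.dd_smul h h' (X.fr y) i
  simp only [smul_eq_mul] at this
  rw [dv, this, add_comm]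
  rfl

end SMB

theorem stSMB (hA : St_ALGB) (hL : St_LOC) : St_SMB := by
  intro n X
  have A := hA n 0 X (sp0 n)
  have L := hL n 0 X (sp0 n)
  refine ⟨SMB.meas A L, fun h => ⟨⟨h.sm.continuous.measurable, h.bd⟩, fun i =>
    ⟨SMB.meas A L h.sm i, h.bd'.imp fun _ hC => hC i⟩⟩, SMB.bd_on A L, fun {ψ} h hc => ⟨h, ?_, ?_⟩,
    fun {ψ χ} h h' => ⟨h.sm.mul h'.sm, ?_, ?_⟩, SMB.dv_zero L,
    fun h i => L.dd_congr h _ i, SMB.dv_mul L, SMB.sq_sum A⟩
  · exact h.continuous.bounded_above_of_compact_support hc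
  · obtain ⟨C, hC⟩ := SMB.bd_on A L h _ hc
    refine ⟨|C|, fun i y => ?_⟩
    by_cases hy : y ∈ tsupport ψ
    · exact (hC i y hy).trans (le_abs_self C)
    · rw [SMB.dv_zero L hy, abs_zero]
      exact abs_nonneg C
  · obtain ⟨C, hC⟩ := h.bd
    obtain ⟨C', hC'⟩ := h'.bd
    refine ⟨C * C', fun y => ?_⟩
    rw [abs_mul]
    exact mul_le_mul (hC y) (hC' y) (abs_nonneg _) ((abs_nonneg _).trans (hC y))
  · obtain ⟨C, hC⟩ := h.bd
    obtain ⟨C', hC'⟩ := h'.bd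
    obtain ⟨D, hD⟩ := h.bd'
    obtain ⟨D', hD'⟩ := h'.bd'
    refine ⟨D * C' + C * D', fun i y => ?_⟩
    rw [SMB.dv_mul L (h.sm.mdifferentiableAt (by simp)) (h'.sm.mdifferentiableAt (by simp))]
    refine (abs_add_le _ _).trans (add_le_add ?_ ?_) <;> rw [abs_mul]
    · exact mul_le_mul (hD i y) (hC' y) (abs_nonneg _) ((abs_nonneg _).trans (hD i y))
    · exact mul_le_mul (hC y) (hD' i y) (abs_nonneg _) ((abs_nonneg _).trans (hC y))

end Pool.Agent.Lib.AN
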