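import Pool.Agent.Lib.AN.Blue

/-! The resolvent on elementary test sections. -/

noncomputable section

open Set Function Filter Topology MeasureTheory CliffordAlgebra
open scoped Manifold ContDiff InnerProductSpace

namespace Pool.Agent.Lib.AN

open CX

namespace TEST

variable {n N : ℕ} {X : SM n} {S : Spinor n N} {μ : Measure X.M} {w : Eu N →L[ℝ] Eu N}

theorem cg_cl (L : MulApi (Eu N) μ) {d : Fin n → X.M → ℝ} (hd : ∀ i, Bm (d i)) {s : X.M → Eu N}
    (hs : MemLp s 2 μ) : MemLp (fun y => ∑ i, gam S i (d i y • s y)) 2 μ ∧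
      cg X S μ d (cl μ s) = cl μ fun y => ∑ i, gam S i (d i y • s y) := by
  have h1 : ∀ i, MemLp (fun y => gam S i (d i y • s y)) 2 μ := fun i =>
    (L.cst_cl (gam S i) (L.mul_cl (hd i) hs).1).1
  refine ⟨memLp_finsetSum _ fun i _ => h1 i, ?_⟩
  rw [L.cl_sum _ _ fun i _ => h1 i, cg, ContinuousLinearMap.sum_apply]
  refine Finset.sum_congr rfl fun i _ => ?_
  rw [ContinuousLinearMap.mul_apply, (L.mul_cl (hd i) hs).2,
    (L.cst_cl (gam S i) (L.mul_cl (hd i) hs).1).2]

theorem isT_dw (C : CoreApi X S) (hw : Gr S w) {s : X.M → Eu N} (hs : IsT X S s) :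
    IsT X S (dw X S w s) := C.add (C.dir hs) (C.w hw hs)

theorem dw_mul (C : CoreApi X S) {ψ : X.M → ℝ} {s : X.M → Eu N} (hs : IsT X S s)
    (hψ : ∀ y ∈ tsupport s, ContMDiffAt (𝓡 n) 𝓘(ℝ, ℝ) ∞ ψ y) (y : X.M) :
    dw X S w (fun z => ψ z • s z) y = ψ y • dw X S w s y + ∑ i, gam S i (dv X i ψ y • s y) := by
  simp only [dw, C.dir_mul hs hψ y, map_smul, smul_add]
  abel

theorem dw_sum (C : CoreApi X S) {κ : Type} (F : Finset κ) {s : κ → X.M → Eu N}
    (hs : ∀ k ∈ F, IsT X S (s k)) (y : X.M) :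
    dw X S w (fun z => ∑ k ∈ F, s k z) y = ∑ k ∈ F, dw X S w (s k) y := by
  simp only [dw, C.dir_sum F hs y, map_sum, Finset.sum_add_distrib]

end TEST

open TEST in
theorem stTEST (hMUL : St_MUL) (hALG : St_ALGB) (hPART : St_PART) (hSMB : St_SMB)
    (hCORE : St_CORE) (hMEM : St_MEM) (hCOC : St_COC) (hPSI : St_PSI) : St_TEST := by
  intro G _ m N x S μ hμ w hw r φ hφ R Nn hR
  have L := hMUL _ (Eu N) μ
  have A := hALG _ _ x.X S
  have C := hCORE _ _ x.X S
  have B := hSMB _ x.X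
  have O := hCOC G m x
  have P := hPSI G m x r φ hφ
  have M : ∀ {s}, IsT x.X S s → MemLp s 2 μ := fun hs => (hMEM _ _ x.X S μ hμ _ hs).1
  have key : ∀ {b s}, IsT x.X S s → mul (Eu N) μ (φ b) (cl μ (dw x.X S w s)) +
      cg x.X S μ (fun j => dv x.X j (φ b)) (cl μ s) =
        cl μ (dw x.X S w fun z => φ b z • s z) := by
    intro b s hs
    have h1 := L.mul_cl (B.bm (hφ.sm b)).1 (M (isT_dw C hw hs))
    have h2 := cg_cl (S := S) L (B.bm (hφ.sm b)).2 (M hs)
    rw [h1.2, h2.2, ← L.cl_add h1.1 h2.1]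
    congr 1
    funext y
    exact (dw_mul C hs (fun y _ => (hφ.sm b).sm y) y).symm
  refine ⟨fun {a O' u} hu => ?_, fun {a i u} hu b g => ?_, fun i z => ?_⟩
  · obtain ⟨h1, -, -, h4⟩ := C.glob hu
    refine ⟨M h1, M (isT_dw C hw h1), funext fun y => ?_⟩
    simp only [dw, h4, glob, map_add]
    congr 1
    by_cases hy : y ∈ x.X.U a
    · exact (A.tr_w hw (A.mem_fr y) hy _).symm
    · have : u y = 0 := image_eq_zero_of_notMem_tsupport fun h => hy (hu.sub h).1
      simp [this]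
  · obtain ⟨h1, h2, -, -⟩ := C.glob hu
    set s := glob x.X S a u with hs
    have hsub : tsupport s ⊆ OO x i := fun y hy => (hu.sub (h2 hy)).2
    have hψ : ∀ y ∈ tsupport s,
        ContMDiffAt (𝓡 (m + 1)) 𝓘(ℝ, ℝ) ∞ (fun q => EE x b i g q * φ b q) y :=
      fun y hy => (P.loc i b g y (hsub hy)).1
    have h3 := C.mul h1 hψ
    have h4 := C.mul h1 fun y _ => (hφ.sm b).sm y
    rw [key h1, (L.mul_cl (O.bm b i g) (M (isT_dw C hw h4))).2,
      (L.mul_cl (B.bm (hφ.sm b)).1 (M h1)).2, (L.mul_cl (O.bm b i g) (M h4)).2]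
    have e1 : (fun y => EE x b i g y • dw x.X S w (fun z => φ b z • s z) y) =
        dw x.X S w fun z => (EE x b i g z * φ b z) • s z := by
      funext y
      rw [dw_mul C h1 hψ, dw_mul C h1 fun y _ => (hφ.sm b).sm y]
      by_cases hy : y ∈ OO x i
      · simp only [(P.loc i b g y hy).2, mul_smul, map_smul, smul_add, Finset.smul_sum]
      · have h5 : EE x b i g y = 0 := if_neg fun h => hy h.2.1
        have h6 : s y = 0 := image_eq_zero_of_notMem_tsupport fun h => hy (hsub h)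
        simp [h5, h6]
    rw [e1, hR.R_cl _ h3]
    simp only [mul_smul]
  · set T := Submodule.span ℝ {q : Lp (Eu N) 2 μ × Lp (Eu N) 2 μ | ∃ a u, IsE x.X a (OO x i) u ∧
      q = (cl μ (dw x.X S w (glob x.X S a u)), cl μ (glob x.X S a u))} with hT
    have hc : Continuous fun z => ((mul (Eu N) μ (φ i) +
        cg x.X S μ (fun j => dv x.X j (φ i)) * R) z, mul (Eu N) μ (φ i) (R z)) :=
      (ContinuousLinearMap.continuous _).prodMk
        ((ContinuousLinearMap.continuous _).comp R.continuous)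
    refine closure_minimal ?_ (isClosed_closure.preimage hc) (hR.dense z)
    rintro _ ⟨s, hs, rfl⟩
    refine subset_closure ?_
    beta_reduce
    rw [ContinuousLinearMap.add_apply, ContinuousLinearMap.mul_apply, hR.R_cl s hs, key hs,
      (L.mul_cl (B.bm (hφ.sm i)).1 (M hs)).2]
    have ht := C.mul hs fun y _ => (hφ.sm i).sm y
    set t : x.X.M → Eu N := fun z => φ i z • s z with htd
    have hsub : tsupport t ⊆ OO x i := (tsupport_smul_subset_left _ _).trans (hφ.sub i)
    obtain ⟨k, p, θ, h1, h2⟩ := hPART _ x.X inferInstance (tsupport t) ht.cpt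
      (fun y => x.X.U (x.X.fr y) ∩ OO x i) fun y hy =>
        inter_mem ((x.X.isOpen _).mem_nhds (A.mem_fr y)) ((O.isOpen i).mem_nhds (hsub hy))
    have h3 : ∀ l, IsT x.X S fun z => θ l z • t z := fun l => C.mul ht fun y _ => (h1 l).2.1 y
    have h4 : t = fun z => ∑ l, θ l z • t z := by
      funext y
      by_cases hy : y ∈ tsupport t
      · rw [← Finset.sum_smul, h2.self_of_nhdsSet y hy, one_smul]
      · simp [image_eq_zero_of_notMem_tsupport hy]
    have h5 : (cl μ (dw x.X S w t), cl μ t) =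
        ∑ l, (cl μ (dw x.X S w fun z => θ l z • t z), cl μ fun z => θ l z • t z) := by
      refine Prod.ext ?_ ?_
      · rw [Prod.fst_sum, ← L.cl_sum _ _ fun l _ => M (isT_dw C hw (h3 l))]
        refine congrArg (cl μ) (funext fun y => ?_)
        rw [← dw_sum C _ fun l _ => h3 l, ← h4]
      · rw [Prod.snd_sum, ← L.cl_sum _ _ fun l _ => M (h3 l), ← h4]
    rw [SetLike.mem_coe, h5]
    refine T.sum_mem fun l _ => Submodule.subset_span ?_
    obtain ⟨h6, h7⟩ := C.unglob (h3 l) ((tsupport_smul_subset_left _ _).trans (h1 l).2.2.2)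
    exact ⟨_, _, h6, by rw [h7]⟩

end Pool.Agent.Lib.AN
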