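import Pool.Agent.Lib.AN.REL1

/-! Rellich in a chart, and weak solutions are strong in a chart. -/

noncomputable section

open Set Function Filter Topology MeasureTheory
open scoped Manifold ContDiff InnerProductSpace

namespace Pool.Agent.Lib.AN

open CX TH

variable {n N : ℕ} {X : SM n} {S : Spinor n N} {μ : Measure X.M} {x₀ : X.M} {a : ℕ}

theorem stWS1 (hMUL : St_MUL) (hALG : St_ALGB) (hPART : St_PART) (hSMB : St_SMB)
    (hCORE : St_CORE) (hMEM : St_MEM) (hDENS : St_DENS) : St_WS1 := by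
  intro n N X S μ hμ hσ x₀ a K hK hKW p q hp hw
  have hM := hMUL _ (Eu N) μ
  have hC := hCORE _ _ X S
  obtain ⟨r, c, θ, hθ, hs⟩ := hPART n X hσ K hK (fun _ => X.W x₀ a)
    fun y hy => (X.isOpen_W x₀ a).mem_nhds (hKW hy)
  let ρ : X.M → ℝ := fun y => ∑ l, θ l y
  have hρ1 : ContMDiff (𝓡 n) 𝓘(ℝ, ℝ) ∞ ρ := contMDiff_finsetSum fun l _ => (hθ l).2.1
  have hK' : IsCompact (⋃ l, tsupport (θ l)) := isCompact_iUnion fun l => (hθ l).2.2.1
  have hρ2 : tsupport ρ ⊆ ⋃ l, tsupport (θ l) := closure_minimal (fun y hy => by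
    by_contra hn
    exact hy (Finset.sum_eq_zero fun l _ => image_eq_zero_of_notMem_tsupport fun h =>
      hn (mem_iUnion.2 ⟨l, h⟩))) hK'.isClosed
  have hKW' : (⋃ l, tsupport (θ l)) ⊆ X.W x₀ a := iUnion_subset fun l => (hθ l).2.2.2
  have hb := ((hSMB n X).bm ((hSMB n X).of_cpt hρ1
    (hK'.of_isClosed_subset (isClosed_tsupport _) hρ2))).1
  have e : mul (Eu N) μ ρ p = p := by
    refine Lp.ext ?_
    filter_upwards [hM.mul_ae hb p, hp] with y h1 h2
    rw [h1]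
    by_cases hy : y ∈ K
    · rw [show ρ y = 1 from hs.self_of_nhdsSet y hy, one_smul]
    · rw [h2 hy, smul_zero]
  obtain ⟨C, h⟩ := TH.weak_strong S 1 hμ (cls := fun u => cl μ (glob X S a u))
    (inner_glob hMUL hALG hCORE hMEM hμ) (σ := 1) (fun _ _ => rfl) (fun _ _ => by simp)
    (fun _ _ _ => rfl) hK' hKW' (u := p) (v := q) (by
      rw [← e]
      refine map_mem_closure (mul (Eu N) μ ρ).continuous (hDENS _ _ X S μ hμ hσ p) ?_
      rintro _ ⟨s, hs, rfl⟩
      have h1 := hC.mul (ψ := ρ) hs fun y _ => hρ1 y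
      have h2 : tsupport (fun y => ρ y • s y) ⊆ ⋃ l, tsupport (θ l) :=
        (tsupport_smul_subset_left _ _).trans hρ2
      obtain ⟨h3, h4⟩ := hC.unglob (a := a) (O := (X.ct x₀).source) h1
        ((h2.trans hKW').trans (inter_comm _ _).subset)
      refine ⟨_, ⟨isE_iff.1 h3, (tsupport_loc _).trans h2⟩, ?_⟩
      simp only [h4]
      exact ((hM.mul_cl hb (hMEM _ _ X S μ hμ s hs).1).2).symm)
    fun ψ hψ => by
      have h1 := hC.glob (isE_iff.2 hψ)
      have := hw _ h1.1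
      rwa [h1.2.2.2] at this
  refine ⟨C, fun η hη => ?_⟩
  obtain ⟨ψ, hψ, h1, h2⟩ := h η hη
  have h3 := hC.glob (isE_iff.2 hψ)
  exact ⟨_, h3.1, by rwa [norm_sub_rev], by rw [h3.2.2.2]; exact h2⟩

end Pool.Agent.Lib.AN
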