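import Pool.Agent.Lib.AN.RAPI

/-! Block WS2: localisation of weak solutions. -/

noncomputable section

open Set Function Filter Topology MeasureTheory CliffordAlgebra
open scoped Manifold ContDiff InnerProductSpace

namespace Pool.Agent.Lib.AN

open CX

variable {n N : ℕ} {X : SM n} {S : Spinor n N} {μ : Measure X.M}

/-- Clifford multiplication by a vector field is skew. -/
theorem ws2_skew (hM : MulApi (Eu N) μ) (hA : AlgApi X S) {d : Fin n → X.M → ℝ}
    (hd : ∀ i, Bm (d i)) (f g : Lp (Eu N) 2 μ) :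
    ⟪cg X S μ d f, g⟫_ℝ = -⟪f, cg X S μ d g⟫_ℝ := by
  unfold cg
  rw [sum_apply, sum_apply, sum_inner, inner_sum, ← Finset.sum_neg_distrib]
  refine Finset.sum_congr rfl fun i _ => ?_
  have e1 := hM.cst_inner (gam S i) ((-1 : ℝ) • gam S i) (fun u v => by
    rw [hA.gam_skew, smul_apply, inner_smul_right]; simp) (mul (Eu N) μ (d i) f) g
  have e2 : cst μ ((-1 : ℝ) • gam S i) g = -cst μ (gam S i) g := by
    unfold cst
    rw [ContinuousLinearMap.smul_compLpL]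
    simp
  have e3 := congrArg (fun A => A g) (hM.mul_cst (hd i) (gam S i))
  simp only [mul_apply_eq_comp] at e3 ⊢
  rw [e1, e2, inner_neg_right, hM.mul_inner (hd i), e3]

/-- The Leibniz rule for `D` on classes. -/
theorem ws2_mul (hM : MulApi (Eu N) μ) (hB : SmApi X) (hC : CoreApi X S)
    (hm : ∀ s, IsT X S s → MemLp s 2 μ ∧ ∀ i, MemLp (nab X S i s) 2 μ) {s : X.M → Eu N}
    (hs : IsT X S s) {ψ : X.M → ℝ} (hψ : Sm X ψ) :
    cl μ (dir X S fun y => ψ y • s y) =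
      mul (Eu N) μ ψ (cl μ (dir X S s)) + cg X S μ (fun i => dv X i ψ) (cl μ s) := by
  have hsm : ∀ y ∈ tsupport s, ContMDiffAt (𝓡 n) 𝓘(ℝ, ℝ) ∞ ψ y := fun y _ => hψ.sm y
  have hb := hB.bm hψ
  have hg := rapi_cg (S := S) hM hb.2 (hm s hs).1
  have hd := hM.mul_cl hb.1 (hm _ (hC.dir hs)).1
  have e1 : dir X S (fun y => ψ y • s y) =
      fun y => ψ y • dir X S s y + ∑ i, gam S i (dv X i ψ y • s y) := funext (hC.dir_mul hs hsm)
  rw [e1, hM.cl_add hd.1 (memLp_finsetSum _ fun i _ => hg.1 i), ← hd.2, ← hg.2]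

theorem ws2_weak (hM : MulApi (Eu N) μ) (hA : AlgApi X S) (hB : SmApi X) (hC : CoreApi X S)
    (hm : ∀ s, IsT X S s → MemLp s 2 μ ∧ ∀ i, MemLp (nab X S i s) 2 μ) {p q : Lp (Eu N) 2 μ}
    (h : Weak X S μ p q) {ρ : X.M → ℝ} (hρ : Sm X ρ) :
    Weak X S μ (mul (Eu N) μ ρ p) (mul (Eu N) μ ρ q + cg X S μ (fun i => dv X i ρ) p) := by
  intro t ht
  have hb := hB.bm hρ
  have e1 := h _ (hC.mul ht fun y _ => hρ.sm y)
  rw [ws2_mul hM hB hC hm ht hρ, ← (hM.mul_cl hb.1 (hm t ht).1).2, inner_add_right] at e1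
  rw [inner_add_left, hM.mul_inner hb.1, hM.mul_inner hb.1, ws2_skew hM hA hb.2, ← e1]
  ring

/-- Finite sums of strong solutions are strong. -/
theorem ws2_sum (hM : MulApi (Eu N) μ) (hC : CoreApi X S)
    (hm : ∀ s, IsT X S s → MemLp s 2 μ ∧ ∀ i, MemLp (nab X S i s) 2 μ) {κ : Type} (F : Finset κ)
    (p : κ → Lp (Eu N) 2 μ) (hp : ∀ k ∈ F, Strong X S μ (p k)) : Strong X S μ (∑ k ∈ F, p k) := by
  classical
  induction F using Finset.induction_on with
  | empty =>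
    refine ⟨‖cl μ (dir X S fun _ => (0 : Eu N))‖, fun η hη => ⟨_, hC.zero, ?_, le_rfl⟩⟩
    rw [hM.cl_zero]
    simpa using hη
  | insert a F ha ih =>
    obtain ⟨C1, h1⟩ := hp a (Finset.mem_insert_self _ _)
    obtain ⟨C2, h2⟩ := ih fun k hk => hp k (Finset.mem_insert_of_mem hk)
    refine ⟨C1 + C2, fun η hη => ?_⟩
    obtain ⟨f, hf, hf1, hf2⟩ := h1 (η / 2) (half_pos hη)
    obtain ⟨g, hg, hg1, hg2⟩ := h2 (η / 2) (half_pos hη)
    refine ⟨_, hC.add hf hg, ?_, ?_⟩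
    · rw [Finset.sum_insert ha, hM.cl_add (hm f hf).1 (hm g hg).1, add_sub_add_comm]
      exact (norm_add_le _ _).trans_lt (by linarith)
    · rw [show dir X S (fun y => f y + g y) = fun y => dir X S f y + dir X S g y from
        funext (hC.dir_add hf hg), hM.cl_add (hm _ (hC.dir hf)).1 (hm _ (hC.dir hg)).1]
      exact (norm_add_le _ _).trans (add_le_add hf2 hg2)

theorem stWS2 (hMUL : St_MUL) (hALG : St_ALGB) (hPART : St_PART) (hSMB : St_SMB)
    (hCORE : St_CORE) (hMEM : St_MEM) (hWS1 : St_WS1) : St_WS2 := by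
  intro n N X S μ hμ hσ p q h ρ hρ
  have hM := hMUL X.M (Eu N) μ
  have hA := hALG n N X S
  have hB := hSMB n X
  have hC := hCORE n N X S
  have hm := hMEM n N X S μ hμ
  refine ⟨ws2_weak hM hA hB hC hm h hρ, fun hc => ?_⟩
  obtain ⟨r, c, θ, hθ, hs⟩ := hPART n X hσ (tsupport ρ) hc (fun y => X.W y (X.fr y))
    fun y _ => (X.isOpen_W y _).mem_nhds (X.mem_W_fr y)
  have hsm : ∀ l, Sm X fun y => θ l y * ρ y := fun l =>
    hB.mul (hB.of_cpt (hθ l).2.1 (hθ l).2.2.1) hρ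
  have e : ρ = fun y => ∑ l, θ l y * ρ y := by
    funext y
    rw [← Finset.sum_mul]
    by_cases hy : y ∈ tsupport ρ
    · rw [hs.self_of_nhdsSet y hy, one_mul]
    · rw [image_eq_zero_of_notMem_tsupport hy, mul_zero]
  have e2 : mul (Eu N) μ ρ p = ∑ l, mul (Eu N) μ (fun y => θ l y * ρ y) p := by
    conv_lhs => rw [e]
    rw [(hM.mul_sum Finset.univ (fun l y => θ l y * ρ y) fun l _ => (hB.bm (hsm l)).1).2,
      sum_apply]
  rw [e2]
  refine ws2_sum hM hC hm _ _ fun l _ => ?_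
  refine hWS1 n N X S μ hμ hσ (c l) (X.fr (c l)) (tsupport (θ l)) (hθ l).2.2.1 (hθ l).2.2.2 _ _ ?_
    (ws2_weak hM hA hB hC hm h (hsm l))
  filter_upwards [hM.mul_ae (hB.bm (hsm l)).1 p] with y hy hn
  rw [hy, image_eq_zero_of_notMem_tsupport hn, zero_mul, zero_smul]

end Pool.Agent.Lib.AN
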