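import Pool.Agent.Lib.AN.ALGB
import Pool.Agent.Lib.AN.COC
import Pool.Agent.Lib.AN.CORE
import Pool.Agent.Lib.AN.CYL
import Pool.Agent.Lib.AN.DENS
import Pool.Agent.Lib.AN.DR
import Pool.Agent.Lib.AN.EXT
import Pool.Agent.Lib.AN.GAU
import Pool.Agent.Lib.AN.KAP
import Pool.Agent.Lib.AN.LIC
import Pool.Agent.Lib.AN.LOC
import Pool.Agent.Lib.AN.MEM
import Pool.Agent.Lib.AN.MUL
import Pool.Agent.Lib.AN.PHI
import Pool.Agent.Lib.AN.PSI79
import Pool.Agent.Lib.AN.RAPI
import Pool.Agent.Lib.AN.REL1
import Pool.Agent.Lib.AN.REL2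
import Pool.Agent.Lib.AN.RES
import Pool.Agent.Lib.AN.SMB
import Pool.Agent.Lib.AN.TEST
import Pool.Agent.Lib.AN.WS1
import Pool.Agent.Lib.AN.WS2

/-! The analytic package of the Dirac operator, without hypotheses. -/

namespace Pool.Agent.Lib.AN

theorem smb_holds : St_SMB := stSMB stALGB stLOC

theorem core_holds : St_CORE := stCORE stALGB stLOC stGAU

theorem mem_holds : St_MEM := stMEM stALGB stLOC core_holds

theorem lic_holds : St_LIC := stLIC stMUL stALGB stLOC stGAU stGREEN stPART4 core_holds mem_holds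

theorem dens_holds : St_DENS := stDENS stMUL stALGB core_holds mem_holds

theorem ws1_holds : St_WS1 := stWS1 stMUL stALGB stPART4 smb_holds core_holds mem_holds dens_holds

theorem ws2_holds : St_WS2 := stWS2 stMUL stALGB stPART4 smb_holds core_holds mem_holds ws1_holds

theorem dr_holds : St_DR := stDR stMUL stALGB smb_holds core_holds mem_holds lic_holds ws2_holds

theorem res_holds : St_RES := stRES stMUL core_holds mem_holds lic_holds dr_holds

theorem rapi_holds : St_RAPI := stRAPI stMUL smb_holds core_holds mem_holds lic_holds dens_holds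

theorem rel_holds : St_REL2 := stREL2 stMUL stPART4 smb_holds core_holds mem_holds
  (stREL1 stMUL stALGB core_holds mem_holds)

theorem cyl_holds : St_CYL := stCYL stGAU

theorem psi_holds : St_PSI := stPSI79 stLOC smb_holds stCOC

theorem ana_holds : St_ANA := ana_of stMUL stALGB smb_holds res_holds rapi_holds rel_holds cyl_holds
  stCOC (stPHI stEXT cyl_holds stCOC) (stKAP stLOC stGAU cyl_holds) psi_holds
  (stTEST stMUL stALGB stPART4 smb_holds core_holds mem_holds stCOC psi_holds)

end Pool.Agent.Lib.AN
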