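import Pool.Agent.Lib.AN.Defs

/-! Blueprint of the analysis of the Dirac operator. Block `X` is
`theorem stX (earlier blocks) : St_X`. -/

noncomputable section

open Set Function Filter Topology MeasureTheory CliffordAlgebra
open scoped Manifold ContDiff InnerProductSpace

namespace Pool.Agent.Lib.AN

open CX

/-- Classes, multiplication operators, constant matrices. -/
structure MulApi {α : Type} (V : Type) [MeasurableSpace α] [NormedAddCommGroup V]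
    [InnerProductSpace ℝ V] (μ : Measure α) : Prop where
  cl_ae : ∀ {s : α → V}, MemLp s 2 μ → cl μ s =ᵐ[μ] s
  cl_coe : ∀ f : Lp V 2 μ, cl μ f = f
  cl_congr : ∀ {s t : α → V}, s =ᵐ[μ] t → cl μ s = cl μ t
  cl_zero : cl μ (fun _ => (0 : V)) = 0
  cl_add : ∀ {s t : α → V}, MemLp s 2 μ → MemLp t 2 μ →
    cl μ (fun y => s y + t y) = cl μ s + cl μ t
  cl_smul : ∀ (c : ℝ) (s : α → V), cl μ (fun y => c • s y) = c • cl μ s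
  cl_neg : ∀ s : α → V, cl μ (fun y => -s y) = -cl μ s
  cl_sum : ∀ {κ : Type} (F : Finset κ) (s : κ → α → V), (∀ k ∈ F, MemLp (s k) 2 μ) →
    cl μ (fun y => ∑ k ∈ F, s k y) = ∑ k ∈ F, cl μ (s k)
  inner_cl : ∀ {s t : α → V}, MemLp s 2 μ → MemLp t 2 μ →
    Integrable (fun y => ⟪s y, t y⟫_ℝ) μ ∧ ⟪cl μ s, cl μ t⟫_ℝ = ∫ y, ⟪s y, t y⟫_ℝ ∂μ
  norm_cl : ∀ {s : α → V}, MemLp s 2 μ →
    Integrable (fun y => ‖s y‖ ^ 2) μ ∧ ‖cl μ s‖ ^ 2 = ∫ y, ‖s y‖ ^ 2 ∂μ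
  cst_cl : ∀ (A : V →L[ℝ] V) {s : α → V}, MemLp s 2 μ →
    MemLp (fun y => A (s y)) 2 μ ∧ cst μ A (cl μ s) = cl μ fun y => A (s y)
  cst_mul : ∀ A B : V →L[ℝ] V, cst μ (A * B) = cst μ A * cst μ B
  cst_one : cst μ (1 : V →L[ℝ] V) = 1
  cst_inner : ∀ (A B : V →L[ℝ] V), (∀ u v, ⟪A u, v⟫_ℝ = ⟪u, B v⟫_ℝ) →
    ∀ f g, ⟪cst μ A f, g⟫_ℝ = ⟪f, cst μ B g⟫_ℝ
  cst_norm : ∀ (A : V →L[ℝ] V), (∀ u, ‖A u‖ = ‖u‖) → ∀ f, ‖cst μ A f‖ = ‖f‖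
  mul_ae : ∀ {ψ : α → ℝ}, Bm ψ → ∀ f, mul V μ ψ f =ᵐ[μ] fun y => ψ y • f y
  mul_cl : ∀ {ψ : α → ℝ} {s : α → V}, Bm ψ → MemLp s 2 μ →
    MemLp (fun y => ψ y • s y) 2 μ ∧ mul V μ ψ (cl μ s) = cl μ fun y => ψ y • s y
  mul_mul : ∀ {ψ χ : α → ℝ}, Bm ψ → Bm χ →
    Bm (fun y => ψ y * χ y) ∧ mul V μ (fun y => ψ y * χ y) = mul V μ ψ * mul V μ χ
  mul_add : ∀ {ψ χ : α → ℝ}, Bm ψ → Bm χ →
    Bm (fun y => ψ y + χ y) ∧ mul V μ (fun y => ψ y + χ y) = mul V μ ψ + mul V μ χ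
  mul_sum : ∀ {κ : Type} (F : Finset κ) (ψ : κ → α → ℝ), (∀ k ∈ F, Bm (ψ k)) →
    Bm (fun y => ∑ k ∈ F, ψ k y) ∧ mul V μ (fun y => ∑ k ∈ F, ψ k y) = ∑ k ∈ F, mul V μ (ψ k)
  mul_const : ∀ c : ℝ, Bm (fun _ : α => c) ∧ mul V μ (fun _ => c) = c • 1
  mul_inner : ∀ {ψ : α → ℝ}, Bm ψ → ∀ f g, ⟪mul V μ ψ f, g⟫_ℝ = ⟪f, mul V μ ψ g⟫_ℝ
  mul_norm : ∀ {ψ : α → ℝ} {C : ℝ}, Measurable ψ → (∀ y, |ψ y| ≤ C) → ∀ f,
    ‖mul V μ ψ f‖ ≤ C * ‖f‖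
  mul_cst : ∀ {ψ : α → ℝ}, Bm ψ → ∀ A : V →L[ℝ] V, mul V μ ψ * cst μ A = cst μ A * mul V μ ψ

/-- MUL -/
def St_MUL : Prop := ∀ (α V : Type) [MeasurableSpace α] [NormedAddCommGroup V]
  [InnerProductSpace ℝ V] (μ : Measure α), MulApi V μ

variable {n N : ℕ} (X : SM n) (S : Spinor n N)

/-- Pointwise algebra of the frames and of the transition functions. -/
structure AlgApi : Prop where
  mem_fr : ∀ y, y ∈ X.U (X.fr y)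
  meas_fr : Measurable X.fr
  gam_skew : ∀ i u v, ⟪gam S i u, v⟫_ℝ = -⟪u, gam S i v⟫_ℝ
  gam_rel : ∀ i j u, gam S i (gam S j u) + gam S j (gam S i u) =
    (if i = j then (-2 : ℝ) else 0) • u
  gam_norm : ∀ i u, ‖gam S i u‖ = ‖u‖
  tr_self : ∀ {a y}, y ∈ X.U a → ∀ u, tr X S a a y u = u
  tr_tr : ∀ {a b c y}, y ∈ X.U a → y ∈ X.U b → y ∈ X.U c → ∀ u,
    tr X S a b y (tr X S b c y u) = tr X S a c y u
  tr_inner : ∀ {a b y}, y ∈ X.U a → y ∈ X.U b → ∀ u v,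
    ⟪tr X S a b y u, tr X S a b y v⟫_ℝ = ⟪u, v⟫_ℝ
  tr_norm : ∀ {a b y}, y ∈ X.U a → y ∈ X.U b → ∀ u, ‖tr X S a b y u‖ = ‖u‖
  tr_gam : ∀ {a b y}, y ∈ X.U a → y ∈ X.U b → ∀ j u,
    tr X S a b y (gam S j u) = ∑ i, om X a b y i j • gam S i (tr X S a b y u)
  tr_w : ∀ {w}, Gr S w → ∀ {a b y}, y ∈ X.U a → y ∈ X.U b → ∀ u,
    tr X S a b y (w u) = w (tr X S a b y u)
  om_row : ∀ {a b y}, y ∈ X.U a → y ∈ X.U b → ∀ i k,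
    ∑ j, om X a b y i j * om X a b y k j = if i = k then 1 else 0
  om_col : ∀ {a b y}, y ∈ X.U a → y ∈ X.U b → ∀ j k,
    ∑ i, om X a b y i j * om X a b y i k = if j = k then 1 else 0
  tr_sm : ∀ a b, ContMDiffOn (𝓡 n) 𝓘(ℝ, Eu N →L[ℝ] Eu N) ∞ (tr X S a b) (X.U a ∩ X.U b)
  om_sm : ∀ a b i j, ContMDiffOn (𝓡 n) 𝓘(ℝ, ℝ) ∞ (fun y => om X a b y i j) (X.U a ∩ X.U b)
  dd_om : ∀ {W : Type} [NormedAddCommGroup W] [NormedSpace ℝ W] (φ : X.M → W) {a b y},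
    y ∈ X.U a → y ∈ X.U b → ∀ i, X.dd a i φ y = ∑ j, om X a b y i j • X.dd b j φ y
  meas_loc : ∀ a, StronglyMeasurable ((X.U a).indicator fun y => tr X S a (X.fr y) y)
  meas_glob : ∀ a, StronglyMeasurable ((X.U a).indicator fun y => tr X S (X.fr y) a y)
  meas_om : ∀ a i j, Measurable ((X.U a).indicator fun y => om X (X.fr y) a y i j)

/-- ALGB -/
def St_ALGB : Prop := ∀ (n N : ℕ) (X : SM n) (S : Spinor n N), AlgApi X S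

/-- Calculus in one frame. -/
structure LocApi : Prop where
  ga_sm : ∀ a i j k, ContMDiffOn (𝓡 n) 𝓘(ℝ, ℝ) ∞ (X.ga a i j k) (X.U a)
  scalL_sm : ∀ a, ContMDiffOn (𝓡 n) 𝓘(ℝ, ℝ) ∞ (scalL X a) (X.U a)
  dd_sm : ∀ {W : Type} [NormedAddCommGroup W] [NormedSpace ℝ W] [CompleteSpace W] {u : X.M → W}
    {a y}, y ∈ X.U a → ContMDiffAt (𝓡 n) 𝓘(ℝ, W) ∞ u y → ∀ i,
    ContMDiffAt (𝓡 n) 𝓘(ℝ, W) ∞ (X.dd a i u) y
  nabL_sm : ∀ {u a y}, y ∈ X.U a → ContMDiffAt (𝓡 n) 𝓘(ℝ, Eu N) ∞ u y → ∀ i,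
    ContMDiffAt (𝓡 n) 𝓘(ℝ, Eu N) ∞ (nabL X S a i u) y
  dirac_sm : ∀ {u a y}, y ∈ X.U a → ContMDiffAt (𝓡 n) 𝓘(ℝ, Eu N) ∞ u y →
    ContMDiffAt (𝓡 n) 𝓘(ℝ, Eu N) ∞ (X.dirac S a u) y
  dd_congr : ∀ {W : Type} [NormedAddCommGroup W] [NormedSpace ℝ W] {u v : X.M → W} {y},
    u =ᶠ[𝓝 y] v → ∀ a i, X.dd a i u y = X.dd a i v y
  dd_const : ∀ {W : Type} [NormedAddCommGroup W] [NormedSpace ℝ W] (c : W) a i y,
    X.dd a i (fun _ => c) y = 0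
  dd_add : ∀ {W : Type} [NormedAddCommGroup W] [NormedSpace ℝ W] {u v : X.M → W} {y},
    MDifferentiableAt (𝓡 n) 𝓘(ℝ, W) u y → MDifferentiableAt (𝓡 n) 𝓘(ℝ, W) v y → ∀ a i,
    X.dd a i (fun z => u z + v z) y = X.dd a i u y + X.dd a i v y
  dd_sum : ∀ {W κ : Type} [NormedAddCommGroup W] [NormedSpace ℝ W] (F : Finset κ)
    {u : κ → X.M → W} {y}, (∀ k ∈ F, MDifferentiableAt (𝓡 n) 𝓘(ℝ, W) (u k) y) → ∀ a i,
    X.dd a i (fun z => ∑ k ∈ F, u k z) y = ∑ k ∈ F, X.dd a i (u k) y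
  dd_smul : ∀ {W : Type} [NormedAddCommGroup W] [NormedSpace ℝ W] {ψ : X.M → ℝ} {u : X.M → W} {y},
    MDifferentiableAt (𝓡 n) 𝓘(ℝ, ℝ) ψ y → MDifferentiableAt (𝓡 n) 𝓘(ℝ, W) u y → ∀ a i,
    X.dd a i (fun z => ψ z • u z) y = ψ y • X.dd a i u y + X.dd a i ψ y • u y
  dd_comp : ∀ {W W' : Type} [NormedAddCommGroup W] [NormedSpace ℝ W] [NormedAddCommGroup W']
    [NormedSpace ℝ W'] {g : W → W'} {u : X.M → W} {y}, DifferentiableAt ℝ g (u y) →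
    MDifferentiableAt (𝓡 n) 𝓘(ℝ, W) u y → ∀ a i,
    X.dd a i (fun z => g (u z)) y = fderiv ℝ g (u y) (X.dd a i u y)
  nabL_congr : ∀ {u v y}, u =ᶠ[𝓝 y] v → ∀ a i, nabL X S a i u y = nabL X S a i v y
  nabL_zero : ∀ {u y}, y ∉ tsupport u → ∀ a i, nabL X S a i u y = 0
  nabL_add : ∀ {u v y}, MDifferentiableAt (𝓡 n) 𝓘(ℝ, Eu N) u y →
    MDifferentiableAt (𝓡 n) 𝓘(ℝ, Eu N) v y → ∀ a i,
    nabL X S a i (fun z => u z + v z) y = nabL X S a i u y + nabL X S a i v y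
  nabL_smul : ∀ {ψ : X.M → ℝ} {u y}, MDifferentiableAt (𝓡 n) 𝓘(ℝ, ℝ) ψ y →
    MDifferentiableAt (𝓡 n) 𝓘(ℝ, Eu N) u y → ∀ a i,
    nabL X S a i (fun z => ψ z • u z) y = ψ y • nabL X S a i u y + X.dd a i ψ y • u y
  nabL_w : ∀ {w}, Gr S w → ∀ {u y}, MDifferentiableAt (𝓡 n) 𝓘(ℝ, Eu N) u y → ∀ a i,
    nabL X S a i (fun z => w (u z)) y = w (nabL X S a i u y)

/-- LOC -/
def St_LOC : Prop := ∀ (n N : ℕ) (X : SM n) (S : Spinor n N), LocApi X S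

/-- Gauge covariance. -/
structure GauApi : Prop where
  nabL : ∀ {a b y}, y ∈ X.U a → y ∈ X.U b → ∀ {u}, MDifferentiableAt (𝓡 n) 𝓘(ℝ, Eu N) u y → ∀ i,
    nabL X S a i (fun z => tr X S a b z (u z)) y =
      ∑ j, om X a b y i j • tr X S a b y (nabL X S b j u y)
  dirac : ∀ {a b y}, y ∈ X.U a → y ∈ X.U b → ∀ {u}, MDifferentiableAt (𝓡 n) 𝓘(ℝ, Eu N) u y →
    X.dirac S a (fun z => tr X S a b z (u z)) y = tr X S a b y (X.dirac S b u y)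
  scal : ∀ {a y}, y ∈ X.U a → scalL X a y = X.scal y

/-- GAU -/
def St_GAU : Prop := ∀ (n N : ℕ) (X : SM n) (S : Spinor n N), GauApi X S

/-- GREEN: Green and Lichnerowicz formulas in one frame -/
def St_GREEN : Prop := ∀ (n N : ℕ) (X : SM n) (S : Spinor n N) (μ : Measure X.M), X.IsVol μ →
  SigmaCompactSpace X.M → ∀ (a : ℕ) (O : Set X.M) (u v : X.M → Eu N),
  ContMDiffOn (𝓡 n) 𝓘(ℝ, Eu N) ∞ u (X.U a) → IsE X a O v →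
  ∫ y, ⟪X.dirac S a u y, v y⟫_ℝ ∂μ = ∫ y, ⟪u y, X.dirac S a v y⟫_ℝ ∂μ ∧
  ∫ y, ⟪X.dirac S a u y, X.dirac S a v y⟫_ℝ ∂μ =
    ∑ i, ∫ y, ⟪nabL X S a i u y, nabL X S a i v y⟫_ℝ ∂μ +
      ∫ y, scalL X a y / 4 * ⟪u y, v y⟫_ℝ ∂μ

/-- PART: finite partitions of unity near a compact set -/
def St_PART : Prop := ∀ (n : ℕ) (X : SM n), SigmaCompactSpace X.M → ∀ K : Set X.M, IsCompact K →
  ∀ O : X.M → Set X.M, (∀ y ∈ K, O y ∈ 𝓝 y) →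
  ∃ (r : ℕ) (p : Fin r → X.M) (θ : Fin r → X.M → ℝ), (∀ l, p l ∈ K ∧
    ContMDiff (𝓡 n) 𝓘(ℝ, ℝ) ∞ (θ l) ∧ HasCompactSupport (θ l) ∧ tsupport (θ l) ⊆ O (p l)) ∧
    ∀ᶠ y in 𝓝ˢ K, ∑ l, θ l y = 1

/-- Smooth functions and their gradients. -/
structure SmApi : Prop where
  meas : ∀ {ψ}, ContMDiff (𝓡 n) 𝓘(ℝ, ℝ) ∞ ψ → ∀ i, Measurable (dv X i ψ)
  bm : ∀ {ψ}, Sm X ψ → Bm ψ ∧ ∀ i, Bm (dv X i ψ)
  bd_on : ∀ {ψ}, ContMDiff (𝓡 n) 𝓘(ℝ, ℝ) ∞ ψ → ∀ K, IsCompact K →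
    ∃ C, ∀ i, ∀ y ∈ K, |dv X i ψ y| ≤ C
  of_cpt : ∀ {ψ}, ContMDiff (𝓡 n) 𝓘(ℝ, ℝ) ∞ ψ → HasCompactSupport ψ → Sm X ψ
  mul : ∀ {ψ χ}, Sm X ψ → Sm X χ → Sm X fun y => ψ y * χ y
  dv_zero : ∀ {ψ y}, y ∉ tsupport ψ → ∀ i, dv X i ψ y = 0
  dv_congr : ∀ {ψ χ y}, ψ =ᶠ[𝓝 y] χ → ∀ i, dv X i ψ y = dv X i χ y
  dv_mul : ∀ {ψ χ y}, MDifferentiableAt (𝓡 n) 𝓘(ℝ, ℝ) ψ y → MDifferentiableAt (𝓡 n) 𝓘(ℝ, ℝ) χ y →
    ∀ i, dv X i (fun z => ψ z * χ z) y = dv X i ψ y * χ y + ψ y * dv X i χ y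
  sq_sum : ∀ (ψ : X.M → ℝ) {a y}, y ∈ X.U a → ∑ i, dv X i ψ y ^ 2 = ∑ i, X.dd a i ψ y ^ 2

/-- SMB (from ALGB, LOC) -/
def St_SMB : Prop := ∀ (n : ℕ) (X : SM n), SmApi X

/-- Test sections. -/
structure CoreApi : Prop where
  zero : IsT X S fun _ => 0
  add : ∀ {s t}, IsT X S s → IsT X S t → IsT X S fun y => s y + t y
  smul : ∀ (c : ℝ) {s}, IsT X S s → IsT X S fun y => c • s y
  sum : ∀ {κ : Type} (F : Finset κ) {s : κ → X.M → Eu N}, (∀ k ∈ F, IsT X S (s k)) →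
    IsT X S fun y => ∑ k ∈ F, s k y
  w : ∀ {w}, Gr S w → ∀ {s}, IsT X S s → IsT X S fun y => w (s y)
  mul : ∀ {ψ : X.M → ℝ} {s}, IsT X S s → (∀ y ∈ tsupport s, ContMDiffAt (𝓡 n) 𝓘(ℝ, ℝ) ∞ ψ y) →
    IsT X S fun y => ψ y • s y
  dir : ∀ {s}, IsT X S s → IsT X S (dir X S s)
  loc_inner : ∀ (s t : X.M → Eu N) {a y}, y ∈ X.U a →
    ⟪loc X S a s y, loc X S a t y⟫_ℝ = ⟪s y, t y⟫_ℝ
  loc_dir : ∀ {s}, IsT X S s → ∀ {a y}, y ∈ X.U a →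
    loc X S a (AN.dir X S s) y = X.dirac S a (loc X S a s) y
  nab_eq : ∀ {s}, IsT X S s → ∀ {a y}, y ∈ X.U a → ∀ i, nab X S i s y =
    ∑ j, om X (X.fr y) a y i j • tr X S (X.fr y) a y (nabL X S a j (loc X S a s) y)
  nab_inner : ∀ {s t}, IsT X S s → IsT X S t → ∀ {a y}, y ∈ X.U a →
    ∑ i, ⟪nab X S i s y, nab X S i t y⟫_ℝ =
      ∑ i, ⟪nabL X S a i (loc X S a s) y, nabL X S a i (loc X S a t) y⟫_ℝ
  nab_zero : ∀ {s y}, y ∉ tsupport s → ∀ i, nab X S i s y = 0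
  dir_zero : ∀ {s y}, y ∉ tsupport s → AN.dir X S s y = 0
  nab_add : ∀ {s t}, IsT X S s → IsT X S t → ∀ i y,
    nab X S i (fun z => s z + t z) y = nab X S i s y + nab X S i t y
  nab_smul : ∀ (c : ℝ) {s}, IsT X S s → ∀ i y, nab X S i (fun z => c • s z) y = c • nab X S i s y
  nab_mul : ∀ {ψ : X.M → ℝ} {s}, IsT X S s →
    (∀ y ∈ tsupport s, ContMDiffAt (𝓡 n) 𝓘(ℝ, ℝ) ∞ ψ y) → ∀ i y,
    nab X S i (fun z => ψ z • s z) y = ψ y • nab X S i s y + dv X i ψ y • s y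
  dir_add : ∀ {s t}, IsT X S s → IsT X S t → ∀ y,
    AN.dir X S (fun z => s z + t z) y = AN.dir X S s y + AN.dir X S t y
  dir_smul : ∀ (c : ℝ) {s}, IsT X S s → ∀ y,
    AN.dir X S (fun z => c • s z) y = c • AN.dir X S s y
  dir_sum : ∀ {κ : Type} (F : Finset κ) {s : κ → X.M → Eu N}, (∀ k ∈ F, IsT X S (s k)) → ∀ y,
    AN.dir X S (fun z => ∑ k ∈ F, s k z) y = ∑ k ∈ F, AN.dir X S (s k) y
  dir_mul : ∀ {ψ : X.M → ℝ} {s}, IsT X S s →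
    (∀ y ∈ tsupport s, ContMDiffAt (𝓡 n) 𝓘(ℝ, ℝ) ∞ ψ y) → ∀ y,
    AN.dir X S (fun z => ψ z • s z) y =
      ψ y • AN.dir X S s y + ∑ i, gam S i (dv X i ψ y • s y)
  dir_w : ∀ {w}, Gr S w → ∀ {s}, IsT X S s → ∀ y,
    AN.dir X S (fun z => w (s z)) y = -w (AN.dir X S s y)
  glob : ∀ {a O u}, IsE X a O u → IsT X S (glob X S a u) ∧ tsupport (glob X S a u) ⊆ tsupport u ∧
    loc X S a (glob X S a u) = u ∧ AN.dir X S (glob X S a u) = glob X S a (X.dirac S a u)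
  unglob : ∀ {a O s}, IsT X S s → tsupport s ⊆ X.U a ∩ O →
    IsE X a O (loc X S a s) ∧ AN.glob X S a (loc X S a s) = s

/-- CORE (from ALGB, LOC, GAU) -/
def St_CORE : Prop := ∀ (n N : ℕ) (X : SM n) (S : Spinor n N), CoreApi X S

/-- MEM: test sections and their derivatives are square integrable (from ALGB, LOC, CORE) -/
def St_MEM : Prop := ∀ (n N : ℕ) (X : SM n) (S : Spinor n N) (μ : Measure X.M), X.IsVol μ →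
  ∀ s, IsT X S s → MemLp s 2 μ ∧ ∀ i, MemLp (nab X S i s) 2 μ

/-- Global Green and Lichnerowicz formulas. -/
structure LicApi (μ : Measure X.M) : Prop where
  cont : Continuous X.scal
  sym : ∀ {s t}, IsT X S s → IsT X S t →
    ⟪cl μ (dir X S s), cl μ t⟫_ℝ = ⟪cl μ s, cl μ (dir X S t)⟫_ℝ
  int : ∀ {s}, IsT X S s → Integrable (fun y => X.scal y / 4 * ‖s y‖ ^ 2) μ
  lich : ∀ {s}, IsT X S s → ‖cl μ (dir X S s)‖ ^ 2 =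
    ∑ i, ‖cl μ (nab X S i s)‖ ^ 2 + ∫ y, X.scal y / 4 * ‖s y‖ ^ 2 ∂μ

/-- LIC (from MUL, ALGB, LOC, GAU, GREEN, PART, CORE, MEM) -/
def St_LIC : Prop := ∀ (n N : ℕ) (X : SM n) (S : Spinor n N) (μ : Measure X.M), X.IsVol μ →
  SigmaCompactSpace X.M → LicApi X S μ

/-- DENS: test sections are dense (from MUL, ALGB, CORE, MEM) -/
def St_DENS : Prop := ∀ (n N : ℕ) (X : SM n) (S : Spinor n N) (μ : Measure X.M), X.IsVol μ →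
  SigmaCompactSpace X.M → Dense {η : Lp (Eu N) 2 μ | ∃ s, IsT X S s ∧ η = cl μ s}

/-- WS1: weak solutions are strong, in a chart (from MUL, ALGB, LOC, PART, SMB, CORE, MEM, LIC,
DENS) -/
def St_WS1 : Prop := ∀ (n N : ℕ) (X : SM n) (S : Spinor n N) (μ : Measure X.M), X.IsVol μ →
  SigmaCompactSpace X.M → ∀ (x₀ : X.M) (a : ℕ) (K : Set X.M), IsCompact K → K ⊆ X.W x₀ a →
  ∀ p q : Lp (Eu N) 2 μ, (∀ᵐ y ∂μ, y ∉ K → p y = 0) → Weak X S μ p q → Strong X S μ p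

/-- WS2: localisation (from MUL, ALGB, PART, SMB, CORE, MEM, WS1) -/
def St_WS2 : Prop := ∀ (n N : ℕ) (X : SM n) (S : Spinor n N) (μ : Measure X.M), X.IsVol μ →
  SigmaCompactSpace X.M → ∀ p q : Lp (Eu N) 2 μ, Weak X S μ p q → ∀ ρ, Sm X ρ →
  Weak X S μ (mul (Eu N) μ ρ p) (mul (Eu N) μ ρ q + cg X S μ (fun i => dv X i ρ) p) ∧
  (HasCompactSupport ρ → Strong X S μ (mul (Eu N) μ ρ p))

/-- DR: the range of `D + w` is dense (from MUL, ALGB, SMB, CORE, MEM, LIC, WS2) -/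
def St_DR : Prop := ∀ (n N : ℕ) (X : SM n) (S : Spinor n N) (μ : Measure X.M), X.IsVol μ →
  Cpl X → ∀ w, Gr S w → Dense {η : Lp (Eu N) 2 μ | ∃ s, IsT X S s ∧ η = cl μ (dw X S w s)}

/-- RES: the resolvent exists (from MUL, CORE, MEM, LIC, DR) -/
def St_RES : Prop := ∀ (n N : ℕ) (X : SM n) (S : Spinor n N) (μ : Measure X.M), X.IsVol μ →
  Cpl X → (∃ C, ∀ y, -C ≤ X.scal y) → ∀ w, Gr S w → ∃ R Nn, Res X S w μ R Nn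

/-- Algebraic properties of the resolvent. -/
structure ResApi (w : Eu N →L[ℝ] Eu N) (μ : Measure X.M) (R : Lp (Eu N) 2 μ →L[ℝ] Lp (Eu N) 2 μ)
    (Nn : Fin n → Lp (Eu N) 2 μ →L[ℝ] Lp (Eu N) 2 μ) : Prop where
  sym : ∀ ξ η, ⟪R ξ, η⟫_ℝ = ⟪ξ, R η⟫_ℝ
  anti : cst μ w * R + R * cst μ w = (2 : ℝ) • (R * R)
  inj : Injective R
  sum : ∑ j, cst μ (gam S j) * Nn j + cst μ w * R = 1
  comm : ∀ {ψ}, Sm X ψ → mul (Eu N) μ ψ * R - R * mul (Eu N) μ ψ =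
    R * cg X S μ (fun i => dv X i ψ) * R
  leib : ∀ {ψ}, Sm X ψ → ∀ j, Nn j * (mul (Eu N) μ ψ + cg X S μ (fun i => dv X i ψ) * R) =
    mul (Eu N) μ ψ * Nn j + mul (Eu N) μ (dv X j ψ) * R
  lich : ∀ {χ : X.M → ℝ} {κ : ℝ}, Bm χ → (∀ y, κ ≤ χ y ^ 2 + X.scal y / 4) → ∀ η,
    ∑ j, ‖Nn j η‖ ^ 2 + κ * ‖R η‖ ^ 2 ≤ ‖η - cst μ w (R η)‖ ^ 2 + ‖mul (Eu N) μ χ (R η)‖ ^ 2

/-- RAPI (from MUL, SMB, CORE, MEM, LIC, DENS) -/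
def St_RAPI : Prop := ∀ (n N : ℕ) (X : SM n) (S : Spinor n N) (μ : Measure X.M), X.IsVol μ →
  SigmaCompactSpace X.M → ∀ w, Gr S w → ∀ R Nn, Res X S w μ R Nn → ResApi X S w μ R Nn

/-- REL1: Rellich in a chart (from MUL, ALGB, LOC, CORE, MEM) -/
def St_REL1 : Prop := ∀ (n N : ℕ) (X : SM n) (S : Spinor n N) (μ : Measure X.M), X.IsVol μ →
  SigmaCompactSpace X.M → ∀ (x₀ : X.M) (a : ℕ) (K : Set X.M), IsCompact K → K ⊆ X.W x₀ a →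
  ∀ δ > (0 : ℝ),
  ∃ Q : Lp (Eu N) 2 μ →L[ℝ] Lp (Eu N) 2 μ, IsCompactOperator Q ∧ ∀ f, IsT X S f →
    tsupport f ⊆ K → ‖cl μ f - Q (cl μ f)‖ ^ 2 ≤ δ * (‖cl μ (dir X S f)‖ ^ 2 + ‖cl μ f‖ ^ 2)

/-- REL2: local compactness of the resolvent (from MUL, PART, SMB, CORE, MEM, REL1) -/
def St_REL2 : Prop := ∀ (n N : ℕ) (X : SM n) (S : Spinor n N) (μ : Measure X.M), X.IsVol μ →
  SigmaCompactSpace X.M → ∀ w, Gr S w → ∀ R Nn, Res X S w μ R Nn → ∀ χ : X.M → ℝ, Bm χ →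
  HasCompactSupport χ →
  IsCompactOperator (mul (Eu N) μ χ * R : Lp (Eu N) 2 μ →L[ℝ] Lp (Eu N) 2 μ)

variable {G : Type} [Group G] {m : ℕ}

/-- Topology of the cylinder and functions on it. -/
structure ExtApi (x : Sing G m) : Prop where
  closed : ∀ s > (0 : ℝ), IsClosed (x.j '' {z | s ≤ z.2 0})
  cpt : ∀ s > (0 : ℝ), IsCompact (x.j '' {z | s < z.2 0})ᶜ
  ext : ∀ (g : x.N.M → ℝ) (η : ℝ → ℝ), ContMDiff (𝓡 m) 𝓘(ℝ, ℝ) ∞ g → ContDiff ℝ ∞ η →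
    ∀ s > (0 : ℝ), (∀ t ≤ s, η t = 0) → ∃ ψ : x.X.M → ℝ, ContMDiff (𝓡 (m + 1)) 𝓘(ℝ, ℝ) ∞ ψ ∧
      (∀ y (t : Eu 1), 0 < t 0 → ψ (x.j (y, t)) = η (t 0) * g y) ∧
      ∀ p ∉ x.j '' {z | s ≤ z.2 0}, ψ p = 0

/-- EXT -/
def St_EXT : Prop := ∀ (G : Type) [Group G] (m : ℕ) (x : Sing G m), ExtApi x

/-- Geometry of the cylinder. -/
structure CylApi (x : Sing G m) : Prop where
  cpl : Cpl x.X
  scal : ∀ y (t : Eu 1), 0 < t 0 → x.X.scal (x.j (y, t)) = x.N.scal y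
  pull : ∀ (ψ : x.X.M → ℝ) (g : x.N.M → ℝ), ContMDiff (𝓡 (m + 1)) 𝓘(ℝ, ℝ) ∞ ψ →
    ContMDiff (𝓡 m) 𝓘(ℝ, ℝ) ∞ g → ∀ s > (0 : ℝ),
    (∀ y (t : Eu 1), s ≤ t 0 → ψ (x.j (y, t)) = g y) → Sm x.X ψ

/-- CYL (from ALGB, LOC, GAU, SMB, EXT) -/
def St_CYL : Prop := ∀ (G : Type) [Group G] (m : ℕ) (x : Sing G m), CylApi x

/-- The cocycle. -/
structure CocApi (x : Sing G m) : Prop where
  isOpen : ∀ a, IsOpen (OO x a)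
  lc : ∀ {a b p}, p ∈ OO x a → p ∈ OO x b → ∀ᶠ q in 𝓝 p, (x.f q).co a b = (x.f p).co a b
  bm : ∀ a b g, Bm (EE x a b g)
  fin : ∃ (r : ℕ) (F : Finset G), (∀ p, ∃ a < r, p ∈ OO x a) ∧ (∀ a, r ≤ a → OO x a = ∅) ∧
    ∀ p a b, (x.f p).co a b ∈ F

/-- COC (use CX.stBG1, stBG2, stFIN) -/
def St_COC : Prop := ∀ (G : Type) [Group G] (m : ℕ) (x : Sing G m), CocApi x

/-- PHI: the partition of unity (from EXT, CYL, COC) -/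
def St_PHI : Prop := ∀ (G : Type) [Group G] (m : ℕ) (x : Sing G m), ∃ r φ, Phi x r φ

/-- KAP: curvature bounds (from LOC, GAU, EXT, CYL) -/
def St_KAP : Prop := ∀ (G : Type) [Group G] (m N : ℕ) (x : Sing G m) (_ : Spinor (m + 1) N),
  (∃ C, ∀ p, -C ≤ x.X.scal p) ∧ ((∀ y, 0 < x.N.scal y) → ∃ (χ : x.X.M → ℝ) (κ : ℝ), Bm χ ∧
    HasCompactSupport χ ∧ 0 < κ ∧ ∀ p, κ ≤ χ p ^ 2 + x.X.scal p / 4)

/-- The multipliers built from the partition of unity and the cocycle. -/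
structure PsiApi (x : Sing G m) (r : ℕ) (φ : ℕ → x.X.M → ℝ) : Prop where
  zero : ∀ {a p}, p ∉ OO x a → φ a p = 0 ∧ ∀ j, dv x.X j (φ a) p = 0
  orth : ∀ j p, ∑ a : Fin (r + 1), φ a p * dv x.X j (φ a) p = 0
  sm : ∀ a b g, Sm x.X fun p => φ a p * φ b p * EE x a b g p
  dv_eq : ∀ a b g j p, dv x.X j (fun p => φ a p * φ b p * EE x a b g p) p =
    (dv x.X j (φ a) p * φ b p + φ a p * dv x.X j (φ b) p) * EE x a b g p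
  loc : ∀ a b g, ∀ p ∈ OO x a,
    ContMDiffAt (𝓡 (m + 1)) 𝓘(ℝ, ℝ) ∞ (fun q => EE x b a g q * φ b q) p ∧
    ∀ j, dv x.X j (fun q => EE x b a g q * φ b q) p = EE x b a g p * dv x.X j (φ b) p

/-- PSI (from LOC, SMB, COC) -/
def St_PSI : Prop := ∀ (G : Type) [Group G] (m : ℕ) (x : Sing G m) r φ, Phi x r φ → PsiApi x r φ

/-- The action of the resolvent on elementary test sections. -/
structure TestApi (x : Sing G m) (S : Spinor (m + 1) N) (w : Eu N →L[ℝ] Eu N) (μ : Measure x.X.M)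
    (φ : ℕ → x.X.M → ℝ) (R : Lp (Eu N) 2 μ →L[ℝ] Lp (Eu N) 2 μ) : Prop where
  mem : ∀ {a O u}, IsE x.X a O u → MemLp (glob x.X S a u) 2 μ ∧
    MemLp (dw x.X S w (glob x.X S a u)) 2 μ ∧
    dw x.X S w (glob x.X S a u) = glob x.X S a fun p => x.X.dirac S a u p + w (u p)
  loc : ∀ {a i u}, IsE x.X a (OO x i) u → ∀ b g,
    R (mul (Eu N) μ (EE x b i g) (mul (Eu N) μ (φ b) (cl μ (dw x.X S w (glob x.X S a u))) +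
      cg x.X S μ (fun j => dv x.X j (φ b)) (cl μ (glob x.X S a u)))) =
    mul (Eu N) μ (EE x b i g) (mul (Eu N) μ (φ b) (cl μ (glob x.X S a u)))
  core : ∀ i z, ((mul (Eu N) μ (φ i) + cg x.X S μ (fun j => dv x.X j (φ i)) * R) z,
      mul (Eu N) μ (φ i) (R z)) ∈ closure (Submodule.span ℝ {q : Lp (Eu N) 2 μ × Lp (Eu N) 2 μ |
    ∃ a u, IsE x.X a (OO x i) u ∧
      q = (cl μ (dw x.X S w (glob x.X S a u)), cl μ (glob x.X S a u))} : Set _)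

/-- TEST (from MUL, ALGB, PART, SMB, CORE, MEM, COC, PSI) -/
def St_TEST : Prop := ∀ (G : Type) [Group G] (m N : ℕ) (x : Sing G m) (S : Spinor (m + 1) N)
  (μ : Measure x.X.M), x.X.IsVol μ → ∀ w, Gr S w → ∀ r φ, Phi x r φ → ∀ R Nn,
  Res x.X S w μ R Nn → TestApi x S w μ φ R

/-- The analytic package. -/
structure Pack (x : Sing G m) (S : Spinor (m + 1) N) (w : Eu N →L[ℝ] Eu N) (μ : Measure x.X.M)
    (r : ℕ) (φ : ℕ → x.X.M → ℝ) (R : Lp (Eu N) 2 μ →L[ℝ] Lp (Eu N) 2 μ)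
    (Nn : Fin (m + 1) → Lp (Eu N) 2 μ →L[ℝ] Lp (Eu N) 2 μ) : Prop where
  l2 : MulApi (Eu N) μ
  alg : AlgApi x.X S
  smb : SmApi x.X
  coc : CocApi x
  phi : Phi x r φ
  psi : PsiApi x r φ
  res : Res x.X S w μ R Nn
  api : ResApi x.X S w μ R Nn
  test : TestApi x S w μ φ R
  cpt : ∀ χ : x.X.M → ℝ, Bm χ → HasCompactSupport χ →
    IsCompactOperator (mul (Eu N) μ χ * R : Lp (Eu N) 2 μ →L[ℝ] Lp (Eu N) 2 μ)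
  kap : (∀ y, 0 < x.N.scal y) → ∃ (χ : x.X.M → ℝ) (κ : ℝ), Bm χ ∧
    HasCompactSupport χ ∧ 0 < κ ∧ ∀ p, κ ≤ χ p ^ 2 + x.X.scal p / 4

/-- The output of the analysis. -/
def St_ANA : Prop := ∀ (G : Type) [Group G] (m N : ℕ) (x : Sing G m) (S : Spinor (m + 1) N)
  (μ : Measure x.X.M), x.X.IsVol μ → ∀ w, Gr S w → ∃ r φ R Nn, Pack x S w μ r φ R Nn

theorem ana_of (hMUL : St_MUL) (hALG : St_ALGB) (hSMB : St_SMB) (hRES : St_RES) (hRAPI : St_RAPI)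
    (hREL : St_REL2) (hCYL : St_CYL) (hCOC : St_COC) (hPHI : St_PHI) (hKAP : St_KAP)
    (hPSI : St_PSI) (hTEST : St_TEST) : St_ANA := by
  intro G _ m N x S μ hμ w hw
  obtain ⟨r, φ, hφ⟩ := hPHI G m x
  obtain ⟨R, Nn, hR⟩ := hRES _ _ x.X S μ hμ (hCYL G m x).cpl (hKAP G m N x S).1 w hw
  exact ⟨r, φ, R, Nn, hMUL _ _ μ, hALG _ _ _ S, hSMB _ _, hCOC G m x, hφ, hPSI G m x r φ hφ, hR,
    hRAPI _ _ _ S μ hμ inferInstance w hw R Nn hR, hTEST G m N x S μ hμ w hw r φ hφ R Nn hR,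
    hREL _ _ _ S μ hμ inferInstance w hw R Nn hR, (hKAP G m N x S).2⟩

end Pool.Agent.Lib.AN
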