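import Pool.Agent.Lib.AN.Blue

/-! Block DENS: test sections are dense. -/

noncomputable section

open Set Function Filter Topology MeasureTheory CliffordAlgebra
open scoped Manifold ContDiff InnerProductSpace

namespace Pool.Agent.Lib.AN

open CX

theorem stDENS9 (hMUL : St_MUL) (hALG : St_ALGB) (hCORE : St_CORE) (hMEM : St_MEM) :
    St_DENS := by
  intro n N X S μ hμ hσ
  have L := hMUL X.M (Eu N) μ
  have A := hALG n N X S
  have Co := hCORE n N X S
  have := hμ.isLocallyFiniteMeasure
  let T : Submodule ℝ (Lp (Eu N) 2 μ) :=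
    { carrier := {η | ∃ s, IsT X S s ∧ η = cl μ s}
      add_mem' := by
        rintro _ _ ⟨s, hs, rfl⟩ ⟨t, ht, rfl⟩
        exact ⟨_, Co.add hs ht,
          (L.cl_add (hMEM n N X S μ hμ s hs).1 (hMEM n N X S μ hμ t ht).1).symm⟩
      zero_mem' := ⟨_, Co.zero, L.cl_zero.symm⟩
      smul_mem' := by
        rintro c _ ⟨s, hs, rfl⟩
        exact ⟨_, Co.smul c hs, (L.cl_smul c s).symm⟩ }
  change Dense (T : Set (Lp (Eu N) 2 μ))
  rw [Submodule.dense_iff_topologicalClosure_eq_top, Submodule.topologicalClosure_eq_top_iff,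
    Submodule.eq_bot_iff]
  intro p hp
  have key : ∀ a (i : Fin N), ∀ᵐ y ∂μ, y ∈ X.U a →
      ⟪((X.U a).indicator (fun y => tr X S (X.fr y) a y) y) (bv i), p y⟫_ℝ = 0 := by
    intro a i
    have h1 : MemLp (fun y =>
        ⟪((X.U a).indicator (fun y => tr X S (X.fr y) a y) y) (bv i), p y⟫_ℝ) 2 μ := by
      refine MemLp.of_le_mul (c := ‖(bv i : Eu N)‖) (Lp.memLp p) ?_ (Eventually.of_forall fun y => ?_)
      · exact ((A.meas_glob a).aestronglyMeasurable.apply_continuousLinearMap _).inner
          (Lp.aestronglyMeasurable p)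
      · refine (norm_inner_le_norm _ _).trans (mul_le_mul_of_nonneg_right ?_ (norm_nonneg _))
        by_cases hy : y ∈ X.U a
        · rw [indicator_of_mem hy, A.tr_norm (A.mem_fr y) hy]
        · rw [indicator_of_notMem hy]
          simp
    refine (X.isOpen a).ae_eq_zero_of_integral_contMDiff_smul_eq_zero (𝓡 n)
      ((h1.locallyIntegrable one_le_two).locallyIntegrableOn _) fun g hg hc hs => ?_
    have hE : IsE X a univ fun y => g y • (bv i : Eu N) :=
      ⟨hg.smul contMDiff_const, hc.smul_right,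
        (tsupport_smul_subset_left g fun _ => (bv i : Eu N)).trans fun y hy => ⟨hs hy, trivial⟩⟩
    have hT := (Co.glob hE).1
    have h2 := (Submodule.mem_orthogonal T p).1 hp _ ⟨_, hT, rfl⟩
    rw [← L.cl_coe p, (L.inner_cl (hMEM n N X S μ hμ _ hT).1 (Lp.memLp p)).2] at h2
    rw [← h2]
    refine integral_congr_ae (Eventually.of_forall fun y => ?_)
    by_cases hy : y ∈ X.U a
    · simp only [glob, indicator_of_mem hy, map_smul, real_inner_smul_left, smul_eq_mul]
    · have h3 : g y = 0 := image_eq_zero_of_notMem_tsupport fun h => hy (hs h)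
      simp [glob, h3]
  rw [Lp.eq_zero_iff_ae_eq_zero]
  filter_upwards [ae_all_iff.2 fun a => ae_all_iff.2 (key a)] with y hy
  ext i
  have h4 := hy (X.fr y) i (A.mem_fr y)
  rw [indicator_of_mem (A.mem_fr y), A.tr_self (A.mem_fr y)] at h4
  simpa [bv, EuclideanSpace.inner_single_left] using h4

end Pool.Agent.Lib.AN
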