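import Pool.Agent.Lib.AN.Blue
import Pool.Agent.Lib.ANA.Div

/-! Finite partitions of unity near a compact set. -/

namespace Pool.Agent.Lib.AN

theorem stPART : St_PART := fun _ _ _ _ hK O hO => ANA.exists_part' hK O hO

end Pool.Agent.Lib.AN
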