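import Pool.Agent.Lib.AN.Blue

/-! Block PSI: the multipliers built from the partition of unity and the cocycle. -/

noncomputable section

open Set Function Filter Topology
open scoped Manifold ContDiff

namespace Pool.Agent.Lib.AN

open CX

namespace Psi9

variable {G : Type} [Group G] {m : ℕ} {x : Sing G m}

theorem ee_lc (hC : CocApi x) {a b : ℕ} {p : x.X.M} (ha : p ∈ OO x a) (hb : p ∈ OO x b) (g : G) :
    EE x a b g =ᶠ[𝓝 p] fun _ => EE x a b g p := by
  filter_upwards [hC.lc ha hb, (hC.isOpen a).mem_nhds ha, (hC.isOpen b).mem_nhds hb] with q h1 h2 h3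
  unfold EE
  by_cases h : (x.f p).co a b = g
  · rw [if_pos ⟨h2, h3, h1.trans h⟩, if_pos ⟨ha, hb, h⟩]
  · rw [if_neg fun h' => h (h1.symm.trans h'.2.2), if_neg fun h' => h h'.2.2]

theorem ee_left {a b : ℕ} {p : x.X.M} (ha : p ∉ OO x a) (g : G) : EE x a b g p = 0 :=
  if_neg fun h => ha h.1

theorem ee_right {a b : ℕ} {p : x.X.M} (hb : p ∉ OO x b) (g : G) : EE x a b g p = 0 :=
  if_neg fun h => hb h.2.1

theorem abs_ee (a b : ℕ) (g : G) (p : x.X.M) : |EE x a b g p| ≤ 1 := by
  unfold EE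
  split_ifs <;> simp

theorem phi_ev {r : ℕ} {φ : ℕ → x.X.M → ℝ} (h : Phi x r φ) {a : ℕ} {p : x.X.M} (ha : p ∉ OO x a) :
    φ a =ᶠ[𝓝 p] fun _ => 0 :=
  notMem_tsupport_iff_eventuallyEq.1 fun h' => ha (h.sub a h')

end Psi9

open Psi9 in
theorem stPSI9 (hLOC : St_LOC) (hSMB : St_SMB) (hCOC : St_COC) : St_PSI := by
  intro G _ m x r φ h
  have L := hLOC _ _ x.X (sp0 (m + 1))
  have B := hSMB _ x.X
  have C := hCOC G m x
  have hd : ∀ a p, MDifferentiableAt (𝓡 (m + 1)) 𝓘(ℝ, ℝ) (φ a) p := fun a p =>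
    ((h.sm a).sm p).mdifferentiableAt (by simp)
  have hc : ∀ (c : ℝ) j p, dv x.X j (fun _ => c) p = 0 := fun c j p => L.dd_const c _ j p
  have hdv : ∀ a b g j p, dv x.X j (fun p => φ a p * φ b p * EE x a b g p) p =
      (dv x.X j (φ a) p * φ b p + φ a p * dv x.X j (φ b) p) * EE x a b g p := by
    intro a b g j p
    by_cases ha : p ∈ OO x a
    · by_cases hb : p ∈ OO x b
      · have e : (fun p => φ a p * φ b p * EE x a b g p) =ᶠ[𝓝 p]
            fun q => φ a q * φ b q * EE x a b g p := by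
          filter_upwards [ee_lc C ha hb g] with q hq
          rw [hq]
        rw [B.dv_congr e, B.dv_mul (ψ := fun q => φ a q * φ b q) (χ := fun _ => EE x a b g p)
          (((B.mul (h.sm a) (h.sm b)).sm p).mdifferentiableAt (by simp)) mdifferentiableAt_const,
          hc, mul_zero, add_zero, B.dv_mul (hd a p) (hd b p)]
      · have e : (fun p => φ a p * φ b p * EE x a b g p) =ᶠ[𝓝 p] fun _ => 0 := by
          filter_upwards [phi_ev h hb] with q hq
          rw [hq, mul_zero, zero_mul]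
        rw [B.dv_congr e, hc, ee_right hb, mul_zero]
    · have e : (fun p => φ a p * φ b p * EE x a b g p) =ᶠ[𝓝 p] fun _ => 0 := by
        filter_upwards [phi_ev h ha] with q hq
        rw [hq, zero_mul, zero_mul]
      rw [B.dv_congr e, hc, ee_left ha, mul_zero]
  refine ⟨fun {a p} ha => ⟨(phi_ev h ha).eq_of_nhds, fun j => by
    rw [B.dv_congr (phi_ev h ha), hc]⟩, fun j p => ?_, fun a b g => ⟨fun p => ?_, ?_, ?_⟩, hdv,
    fun a b g p ha => ?_⟩
  · have h1 : dv x.X j (fun q => ∑ a : Fin (r + 1), φ a q * φ a q) p = 0 := by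
      rw [← hc 1 j p]
      congr 1
      funext q
      rw [← h.sq q]
      exact Finset.sum_congr rfl fun a _ => (sq _).symm
    have h2 : dv x.X j (fun q => ∑ a : Fin (r + 1), φ a q * φ a q) p =
        ∑ a : Fin (r + 1), dv x.X j (fun q => φ a q * φ a q) p :=
      L.dd_sum Finset.univ (u := fun (a : Fin (r + 1)) q => φ a q * φ a q) (fun a _ =>
        ((B.mul (h.sm a) (h.sm a)).sm p).mdifferentiableAt (by simp)) _ j
    rw [h2, Finset.sum_congr rfl fun (a : Fin (r + 1)) _ => B.dv_mul (hd a p) (hd a p) j] at h1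
    have h3 : ∑ a : Fin (r + 1), (dv x.X j (φ a) p * φ a p + φ a p * dv x.X j (φ a) p) =
        2 * ∑ a : Fin (r + 1), φ a p * dv x.X j (φ a) p := by
      rw [Finset.mul_sum]
      exact Finset.sum_congr rfl fun a _ => by ring
    linarith
  · by_cases ha : p ∈ OO x a
    · by_cases hb : p ∈ OO x b
      · refine ((((h.sm a).sm p).mul ((h.sm b).sm p)).mul
          (contMDiffAt_const (c := EE x a b g p))).congr_of_eventuallyEq ?_
        filter_upwards [ee_lc C ha hb g] with q hq
        simp only [hq, Pi.mul_apply]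
      · refine (contMDiffAt_const (c := (0 : ℝ))).congr_of_eventuallyEq ?_
        filter_upwards [phi_ev h hb] with q hq
        rw [hq, mul_zero, zero_mul]
    · refine (contMDiffAt_const (c := (0 : ℝ))).congr_of_eventuallyEq ?_
      filter_upwards [phi_ev h ha] with q hq
      rw [hq, zero_mul, zero_mul]
  · obtain ⟨K, hK⟩ := (B.mul (h.sm a) (h.sm b)).bd
    refine ⟨K, fun p => ?_⟩
    rw [abs_mul]
    exact (mul_le_of_le_one_right (abs_nonneg _) (abs_ee a b g p)).trans (hK p)
  · obtain ⟨K, hK⟩ := (B.mul (h.sm a) (h.sm b)).bd'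
    refine ⟨K, fun j p => ?_⟩
    rw [hdv, ← B.dv_mul (hd a p) (hd b p), abs_mul]
    exact (mul_le_of_le_one_right (abs_nonneg _) (abs_ee a b g p)).trans (hK j p)
  · by_cases hb : p ∈ OO x b
    · have e : (fun q => EE x b a g q * φ b q) =ᶠ[𝓝 p] fun q => EE x b a g p * φ b q := by
        filter_upwards [ee_lc C hb ha g] with q hq
        rw [hq]
      refine ⟨((contMDiffAt_const (c := EE x b a g p)).mul
        ((h.sm b).sm p)).congr_of_eventuallyEq e, fun j => ?_⟩
      rw [B.dv_congr e, B.dv_mul (ψ := fun _ => EE x b a g p) mdifferentiableAt_const (hd b p), hc,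
        zero_mul, zero_add]
    · have e : (fun q => EE x b a g q * φ b q) =ᶠ[𝓝 p] fun _ => 0 := by
        filter_upwards [phi_ev h hb] with q hq
        rw [hq, mul_zero]
      refine ⟨(contMDiffAt_const (c := (0 : ℝ))).congr_of_eventuallyEq e, fun j => ?_⟩
      rw [B.dv_congr e, hc, ee_left hb, zero_mul]

end Pool.Agent.Lib.AN
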