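import Pool.Agent.Lib.AN.Blue

/-! Local compactness of the resolvent. -/

noncomputable section

open Set Function Filter Topology MeasureTheory CliffordAlgebra
open scoped Manifold ContDiff InnerProductSpace

namespace Pool.Agent.Lib.AN

open CX

namespace REL2

theorem compact_of_approx {H : Type} [NormedAddCommGroup H] [NormedSpace ℝ H] [CompleteSpace H]
    (A B : H →L[ℝ] H) (D : Set H) (hD : Dense D)
    (h : ∀ δ > (0 : ℝ), ∃ Q : H →L[ℝ] H, IsCompactOperator Q ∧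
      ∀ η ∈ D, ‖A η - Q (A η)‖ ^ 2 ≤ δ * (‖B η‖ ^ 2 + ‖A η‖ ^ 2)) : IsCompactOperator A := by
  have hc := isClosed_setOfPred_isCompactOperator (𝕜₁ := ℝ) (𝕜₂ := ℝ) (σ₁₂ := RingHom.id ℝ)
    (M₁ := H) (M₂ := H)
  refine hc.closure_subset (Metric.mem_closure_iff.2 fun ε hε => ?_)
  set C : ℝ := ‖B‖ ^ 2 + ‖A‖ ^ 2 + 1 with hC
  have hC0 : 0 < C := by positivity
  obtain ⟨Q, hQ, hb⟩ := h ((ε / 2) ^ 2 / C) (by positivity)
  refine ⟨Q.comp A, hQ.comp_clm A, ?_⟩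
  have hall : ∀ η, ‖A η - Q (A η)‖ ^ 2 ≤ (ε / 2) ^ 2 / C * (‖B η‖ ^ 2 + ‖A η‖ ^ 2) := fun η =>
    (isClosed_le (f := fun η => ‖A η - Q (A η)‖ ^ 2)
      (g := fun η => (ε / 2) ^ 2 / C * (‖B η‖ ^ 2 + ‖A η‖ ^ 2)) (by fun_prop)
      (by fun_prop)).closure_subset_iff.2 hb (hD η)
  rw [dist_eq_norm]
  refine lt_of_le_of_lt (ContinuousLinearMap.opNorm_le_bound _ (by positivity : 0 ≤ ε / 2)
    fun η => ?_) (half_lt_self hε)
  have h1 : ‖B η‖ ^ 2 ≤ ‖B‖ ^ 2 * ‖η‖ ^ 2 := by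
    rw [← mul_pow]; exact pow_le_pow_left₀ (norm_nonneg _) (B.le_opNorm η) 2
  have h2 : ‖A η‖ ^ 2 ≤ ‖A‖ ^ 2 * ‖η‖ ^ 2 := by
    rw [← mul_pow]; exact pow_le_pow_left₀ (norm_nonneg _) (A.le_opNorm η) 2
  have h3 : ‖B η‖ ^ 2 + ‖A η‖ ^ 2 ≤ C * ‖η‖ ^ 2 := by
    rw [hC]; nlinarith [sq_nonneg ‖η‖]
  have h4 : ‖A η - Q (A η)‖ ^ 2 ≤ (ε / 2 * ‖η‖) ^ 2 := by
    refine (hall η).trans ((mul_le_mul_of_nonneg_left h3 (by positivity)).trans (le_of_eq ?_))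
    field_simp
  exact (pow_le_pow_iff_left₀ (norm_nonneg _) (by positivity) two_ne_zero).1 h4

end REL2

theorem stREL2 (hM : St_MUL) (hP : St_PART) (hS : St_SMB) (hC : St_CORE) (hE : St_MEM)
    (h1 : St_REL1) : St_REL2 := by
  intro n N X S μ hμ hσ w hw R Nn hR χ hχ hχc
  have M := hM X.M (Eu N) μ
  have C := hC n N X S
  have Sb := hS n X
  have key : ∀ (x₀ : X.M) (a : ℕ) (θ : X.M → ℝ), ContMDiff (𝓡 n) 𝓘(ℝ, ℝ) ∞ θ →
      HasCompactSupport θ → tsupport θ ⊆ X.W x₀ a →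
      IsCompactOperator (mul (Eu N) μ θ * R : Lp (Eu N) 2 μ →L[ℝ] Lp (Eu N) 2 μ) := by
    intro x₀ a θ hθ hθc hsub
    obtain ⟨hb, hb'⟩ := Sb.bm (Sb.of_cpt hθ hθc)
    refine REL2.compact_of_approx _ (mul (Eu N) μ θ * (1 - cst μ w * R) +
      ∑ i, cst μ (gam S i) * mul (Eu N) μ (dv X i θ) * R) _ hR.dense fun δ hδ => ?_
    obtain ⟨Q, hQ, hq⟩ := h1 n N X S μ hμ hσ x₀ a _ hθc hsub δ hδ
    refine ⟨Q, hQ, ?_⟩
    rintro _ ⟨s, hs, rfl⟩
    have hm : ∀ y ∈ tsupport s, ContMDiffAt (𝓡 n) 𝓘(ℝ, ℝ) ∞ θ y := fun y _ => hθ y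
    have ms := (hE n N X S μ hμ s hs).1
    have md := (hE n N X S μ hμ _ (C.dir hs)).1
    have e1 : (mul (Eu N) μ θ * R) (cl μ (dw X S w s)) = cl μ fun y => θ y • s y := by
      rw [mul_apply_eq_comp, hR.R_cl s hs, (M.mul_cl hb ms).2]
    have e0 : (1 - cst μ w * R) (cl μ (dw X S w s)) = cl μ (dir X S s) := by
      rw [sub_apply, mul_apply_eq_comp, hR.R_cl s hs,
        (M.cst_cl w ms).2, one_apply_eq_self, sub_eq_iff_eq_add]
      exact M.cl_add md (M.cst_cl w ms).1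
    have mi : ∀ i, MemLp (fun y => gam S i (dv X i θ y • s y)) 2 μ := fun i =>
      (M.cst_cl (gam S i) (M.mul_cl (hb' i) ms).1).1
    have e2 : (mul (Eu N) μ θ * (1 - cst μ w * R) +
        ∑ i, cst μ (gam S i) * mul (Eu N) μ (dv X i θ) * R) (cl μ (dw X S w s)) =
        cl μ (dir X S fun y => θ y • s y) := by
      rw [add_apply, mul_apply_eq_comp, e0, (M.mul_cl hb md).2,
        sum_apply, funext (C.dir_mul hs hm),
        M.cl_add (M.mul_cl hb md).1 (memLp_finsetSum _ fun i _ => mi i),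
        M.cl_sum _ _ fun i _ => mi i]
      congr 1
      refine Finset.sum_congr rfl fun i _ => ?_
      rw [mul_apply_eq_comp, mul_apply_eq_comp, hR.R_cl s hs,
        (M.mul_cl (hb' i) ms).2, (M.cst_cl _ (M.mul_cl (hb' i) ms).1).2]
    rw [e1, e2]
    exact hq _ (C.mul hs hm) (tsupport_smul_subset_left θ s)
  obtain ⟨r, p, θ, hθ, hs⟩ := hP n X hσ _ hχc (fun y => X.W y (X.fr y)) fun y _ =>
    (X.isOpen_W y _).mem_nhds (X.mem_W_fr y)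
  have hb : ∀ l, Bm (θ l) := fun l => (Sb.bm (Sb.of_cpt (hθ l).2.1 (hθ l).2.2.1)).1
  have e : χ = fun y => ∑ l, χ y * θ l y := by
    funext y
    rw [← Finset.mul_sum]
    by_cases hy : y ∈ tsupport χ
    · rw [hs.self_of_nhdsSet y hy, mul_one]
    · rw [image_eq_zero_of_notMem_tsupport hy, zero_mul]
  have e' : mul (Eu N) μ χ * R = ∑ l, mul (Eu N) μ χ * (mul (Eu N) μ (θ l) * R) := by
    conv_lhs => rw [e, (M.mul_sum _ _ fun l _ => (M.mul_mul hχ (hb l)).1).2, Finset.sum_mul]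
    exact Finset.sum_congr rfl fun l _ => by rw [(M.mul_mul hχ (hb l)).2, mul_assoc]
  rw [e']
  refine Finset.sum_induction _ (fun T : Lp (Eu N) 2 μ →L[ℝ] Lp (Eu N) 2 μ => IsCompactOperator T)
    (fun _ _ h h' => h.add h') isCompactOperator_zero fun l _ => ?_
  exact (key _ _ _ (hθ l).2.1 (hθ l).2.2.1 (hθ l).2.2.2).clm_comp (mul (Eu N) μ χ)

end Pool.Agent.Lib.AN
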